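import Pool.Agent.Q39.CT.Stmts

/-! # TaskAnc (helper150): the probability that `j` is an ancestor of `k` is `1/(j+1)` -/

namespace Pool.Agent.Q39.CT

open Finset
open scoped Nat Classical

theorem Ex_X {n j : ℕ} (hj : j ≤ n) :
    Ex n (fun f => (X n f j : ℝ)) = ((n : ℝ) + 1) / ((j : ℝ) + 1) := by
  induction n, hj using Nat.le_induction with
  | base =>
    have e : Ex j (fun f => (X j f j : ℝ)) = Ex j (fun _ => 1) :=
      Ex_congr fun f hf => by rw [X_base hf]; simp
    rw [e, Ex_const]
    have : (j : ℝ) + 1 ≠ 0 := by positivity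
    field_simp
  | succ n hn ih =>
    have h := step_one hn (fun x : ℕ => (x : ℝ))
    have hn1 : (n : ℝ) + 1 ≠ 0 := by positivity
    have hj1 : (j : ℝ) + 1 ≠ 0 := by positivity
    have e : Ex n (fun f => ((X n f j : ℝ) * ((X n f j + 1 : ℕ) : ℝ) +
        ((n : ℝ) + 1 - X n f j) * (X n f j : ℝ)) / ((n : ℝ) + 1)) =
        Ex n (fun f => (((n : ℝ) + 2) / ((n : ℝ) + 1)) * (X n f j : ℝ)) :=
      Ex_congr fun f _ => by push_cast; field_simp; ring
    rw [h, e, Ex_mul, ih]
    push_cast
    field_simp
    ring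

theorem taskAnc : TaskAnc := by
  intro n j k hj hjk hkn
  induction n, hkn using Nat.le_induction with
  | base =>
    obtain ⟨m, rfl⟩ : ∃ m, k = m + 1 := ⟨k - 1, by omega⟩
    have hm1 : (m : ℝ) + 1 ≠ 0 := by positivity
    rw [Ex_succ]
    have e : Ex m (fun f => (∑ a ∈ range (m + 1),
        ind (sub (Function.update f (m + 1) a) j (m + 1))) / ((m : ℝ) + 1)) =
        Ex m (fun f => (1 / ((m : ℝ) + 1)) * (X m f j : ℝ)) := by
      refine Ex_congr fun f hf => ?_
      have e1 : ∑ a ∈ range (m + 1), ind (sub (Function.update f (m + 1) a) j (m + 1)) =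
          (X m f j : ℝ) := by
        have e2 : ∑ a ∈ range (m + 1), ind (sub (Function.update f (m + 1) a) j (m + 1)) =
            ∑ a ∈ range (m + 1), (if sub f j a then (1 : ℝ) else 0) := by
          refine Finset.sum_congr rfl fun a ha => ?_
          have ha' := Nat.lt_succ_iff.1 (Finset.mem_range.1 ha)
          by_cases h : sub f j a
          · rw [ind_true ((sub_update_last hf ha' (by omega)).2 h), if_pos h]
          · rw [ind_false (fun h' => h ((sub_update_last hf ha' (by omega)).1 h')), if_neg h]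
        rw [e2, ← Finset.sum_filter, Finset.sum_const, nsmul_eq_mul, mul_one]
        rfl
      rw [e1]; ring
    rw [e, Ex_mul, Ex_X (by omega)]
    have : (j : ℝ) + 1 ≠ 0 := by positivity
    field_simp
  | succ n hn ih =>
    rw [Ex_succ, ← ih]
    refine Ex_congr fun f hf => ?_
    have hn1 : (n : ℝ) + 1 ≠ 0 := by positivity
    have e1 : ∑ a ∈ range (n + 1), ind (sub (Function.update f (n + 1) a) j k) =
        ∑ a ∈ range (n + 1), ind (sub f j k) := by
      refine Finset.sum_congr rfl fun a _ => ?_
      simp only [sub_update hf a j hn]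
    rw [e1, Finset.sum_const, Finset.card_range, nsmul_eq_mul]
    push_cast
    field_simp

end Pool.Agent.Q39.CT
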