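import Pool.Agent.Q39.CT.Stmts

namespace Pool.Agent.Q39.CT

open Finset Filter Topology
open scoped Nat Classical

theorem taskCheb (hVar : TaskVar) : TaskCheb := by
  intro n M a τ hM hMn ha hτ
  have h1 : Ex n (fun f => ind (τ ≤ |(NN n M a f : ℝ) - mu n M a|)) ≤
      Ex n (fun f => (1 / τ ^ 2) * ((NN n M a f : ℝ) - mu n M a) ^ 2) := by
    refine Ex_mono fun f _ => ?_
    unfold ind
    split_ifs with h
    · have h2 : τ ^ 2 ≤ ((NN n M a f : ℝ) - mu n M a) ^ 2 := by
        rw [← sq_abs ((NN n M a f : ℝ) - mu n M a)]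
        exact pow_le_pow_left₀ hτ.le h 2
      rw [one_div, ← div_eq_inv_mul, le_div_iff₀ (by positivity), one_mul]
      exact h2
    · positivity
  refine h1.trans ?_
  rw [Ex_mul]
  have h3 := hVar n M a hM hMn ha
  rw [one_div, ← div_eq_inv_mul]
  exact div_le_div_of_nonneg_right h3 (by positivity)

end Pool.Agent.Q39.CT
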