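import Pool.Agent.Q39.CT.Stmts

set_option autoImplicit false

namespace Pool.Agent.Q39.CT

open Finset
open scoped Classical

/-- the component sizes are bounded -/
lemma comp_le {n : ℕ} {f : ℕ → ℕ} {v : Fin (n + 1)}
    (C : ((TG n f).induce {w | w ≠ v}).ConnectedComponent) (T : Finset ℕ)
    (h : ∀ w ∈ C.supp, ((w : Fin (n + 1)) : ℕ) ∈ T) : Nat.card C.supp ≤ T.card := by
  have h1 : Nat.card C.supp ≤ Nat.card T := by
    refine Nat.card_le_card_of_injective (fun w : C.supp => (⟨((w.1 : Fin (n + 1)) : ℕ), h w.1 w.2⟩ : T)) ?_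
    intro a b hab
    have h2 := congrArg Subtype.val hab
    exact Subtype.ext (Subtype.ext (Fin.ext h2))
  simpa using h1

lemma comp_ge {n : ℕ} {f : ℕ → ℕ} {v : Fin (n + 1)}
    (C : ((TG n f).induce {w | w ≠ v}).ConnectedComponent) (T : Finset ℕ)
    (h : ∀ t ∈ T, ∃ w ∈ C.supp, ((w : Fin (n + 1)) : ℕ) = t) : T.card ≤ Nat.card C.supp := by
  choose g hg hg2 using h
  have h1 : Nat.card T ≤ Nat.card C.supp := by
    refine Nat.card_le_card_of_injective (fun t : T => (⟨g t.1 t.2, hg t.1 t.2⟩ : C.supp)) ?_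
    intro a b hab
    have h2 : g a.1 a.2 = g b.1 b.2 := congrArg Subtype.val hab
    apply Subtype.ext
    rw [← hg2 a.1 a.2, ← hg2 b.1 b.2, h2]
  simpa using h1

lemma psi_bdd {n : ℕ} (f : ℕ → ℕ) (v : Fin (n + 1)) :
    BddAbove {c : ℕ | ∃ C : ((TG n f).induce {w | w ≠ v}).ConnectedComponent, c = Nat.card C.supp} := by
  refine ⟨n + 1, ?_⟩
  rintro c ⟨C, rfl⟩
  have := comp_le C (range (n + 1)) (fun w _ => mem_range.2 w.1.2)
  simpa using this

theorem taskD1 : TaskD1 := by
  intro n f v hf hv
  have h0 : (0 : Fin (n + 1)) ≠ v := by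
    intro h
    apply hv
    rw [← h]
    rfl
  set G := (TG n f).induce {w | w ≠ v} with hG
  set z : {w : Fin (n + 1) | w ≠ v} := ⟨0, h0⟩ with hz
  -- walk along the parents
  have hreach : ∀ (w : ℕ) (hw : w < n + 1) (hwv : (⟨w, hw⟩ : Fin (n + 1)) ≠ v), ¬ sub f v w →
      G.Reachable ⟨⟨w, hw⟩, hwv⟩ z := by
    intro w
    induction w using Nat.strong_induction_on with
    | _ w ih =>
      intro hw hwv hns
      rcases Nat.eq_zero_or_pos w with h | h
      · subst h
        exact SimpleGraph.Reachable.refl _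
      · obtain ⟨u, rfl⟩ : ∃ u, w = u + 1 := ⟨w - 1, by omega⟩
        have hfu : f (u + 1) ≤ u := hf.le u
        have hns' : ¬ sub f v (f (u + 1)) := fun h' => hns ((sub_succ (v : ℕ) (u + 1)).2 (Or.inr h'))
        have hne : (⟨f (u + 1), by omega⟩ : Fin (n + 1)) ≠ v := by
          intro h'
          apply hns'
          rw [← h']
          exact sub_self f _
        have h1 := ih (f (u + 1)) (by omega) (by omega) hne hns'
        refine SimpleGraph.Reachable.trans (SimpleGraph.Adj.reachable ?_) h1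
        rw [hG, SimpleGraph.induce_adj]
        refine ⟨?_, Or.inl rfl⟩
        intro h'
        have := congrArg Fin.val h'
        simp only at this
        omega
  have hcard : n + 1 - X n f v ≤ Nat.card (G.connectedComponentMk z).supp := by
    have h1 : n + 1 - X n f v = ((range (n + 1)).filter (fun w => ¬ sub f v w)).card := by
      have h2 := Finset.card_filter_add_card_filter_not (s := range (n + 1)) (sub f v)
      rw [card_range] at h2
      unfold X
      omega
    rw [h1]
    refine comp_ge _ _ (fun t ht => ?_)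
    rw [mem_filter, mem_range] at ht
    have hne : (⟨t, ht.1⟩ : Fin (n + 1)) ≠ v := by
      intro h'
      apply ht.2
      rw [← h']
      exact sub_self f _
    refine ⟨⟨⟨t, ht.1⟩, hne⟩, ?_, rfl⟩
    rw [SimpleGraph.ConnectedComponent.mem_supp_iff, SimpleGraph.ConnectedComponent.eq]
    exact hreach t ht.1 hne ht.2
  exact hcard.trans (le_csSup (psi_bdd f v) ⟨_, rfl⟩)

end Pool.Agent.Q39.CT
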