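import Pool.Agent.Q39.CT.D1

set_option autoImplicit false

namespace Pool.Agent.Q39.CT

open Finset
open scoped Classical

theorem taskD2 : TaskD2 := by
  intro n f v _ hX
  refine csSup_le' ?_
  rintro c ⟨C, rfl⟩
  -- adjacency preserves the subtree of `v`
  have hadj : ∀ a b : {w : Fin (n + 1) | w ≠ v}, ((TG n f).induce {w | w ≠ v}).Adj a b →
      (sub f v ((a : Fin (n + 1)) : ℕ) ↔ sub f v ((b : Fin (n + 1)) : ℕ)) := by
    intro a b hab
    rw [SimpleGraph.induce_adj] at hab
    have ha : ((a : Fin (n + 1)) : ℕ) ≠ v := fun h => a.2 (Fin.ext h)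
    have hb : ((b : Fin (n + 1)) : ℕ) ≠ v := fun h => b.2 (Fin.ext h)
    rcases hab.2 with h | h
    · rw [sub_succ (v : ℕ) ((a : Fin (n + 1)) : ℕ), h]
      tauto
    · rw [sub_succ (v : ℕ) ((b : Fin (n + 1)) : ℕ), h]
      tauto
  have hwalk : ∀ a b : {w : Fin (n + 1) | w ≠ v}, ((TG n f).induce {w | w ≠ v}).Reachable a b →
      (sub f v ((a : Fin (n + 1)) : ℕ) ↔ sub f v ((b : Fin (n + 1)) : ℕ)) := by
    intro a b hab
    obtain ⟨p⟩ := hab
    induction p with
    | nil => exact Iff.rfl
    | cons h _ ih => exact (hadj _ _ h).trans ih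
  have hXle : X n f v ≤ n + 1 := by
    unfold X
    exact (Finset.card_filter_le _ _).trans (by rw [card_range])
  obtain ⟨a, rfl⟩ := C.exists_rep
  by_cases hs : sub f v ((a : Fin (n + 1)) : ℕ)
  · have h1 : Nat.card (SimpleGraph.connectedComponentMk ((TG n f).induce {w | w ≠ v}) a).supp ≤ X n f v := by
      refine comp_le _ _ (fun w hw => ?_)
      rw [mem_filter, mem_range]
      refine ⟨w.1.2, ?_⟩
      rw [SimpleGraph.ConnectedComponent.mem_supp_iff, SimpleGraph.ConnectedComponent.eq] at hw
      exact (hwalk _ _ hw).2 hs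
    exact h1.trans (by omega)
  · have h1 : Nat.card (SimpleGraph.connectedComponentMk ((TG n f).induce {w | w ≠ v}) a).supp ≤
        ((range (n + 1)).filter (fun w => ¬ sub f v w)).card := by
      refine comp_le _ _ (fun w hw => ?_)
      rw [mem_filter, mem_range]
      refine ⟨w.1.2, ?_⟩
      rw [SimpleGraph.ConnectedComponent.mem_supp_iff, SimpleGraph.ConnectedComponent.eq] at hw
      exact fun h' => hs ((hwalk _ _ hw).1 h')
    have h2 := Finset.card_filter_add_card_filter_not (s := range (n + 1)) (sub f v)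
    rw [card_range] at h2
    refine h1.trans ?_
    unfold X
    omega

end Pool.Agent.Q39.CT
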