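import Pool.Agent.Q39.CT.Stmts

namespace Pool.Agent.Q39.CT

open Finset Filter Topology
open scoped Nat Classical

theorem taskD3 (h1 : TaskD1) (h2 : TaskD2) : TaskD3 := by
  intro n m s f A hf hA hm v hv hv0
  by_contra hs
  have hs' : X n f v < s := not_le.1 hs
  set T : Finset (Fin (n + 1)) := univ.filter
    (fun w => 1 ≤ (w : ℕ) ∧ s ≤ X n f w ∧ 2 * X n f w ≤ n + 1) with hT
  have hcard : ((Finset.Icc 1 n).filter (fun k => s ≤ X n f k ∧ 2 * X n f k ≤ n + 1)).card
      ≤ T.card := by
    rw [← Finset.card_map (Fin.valEmbedding : Fin (n + 1) ↪ ℕ) (s := T)]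
    refine Finset.card_le_card fun k hk => ?_
    rw [Finset.mem_filter, Finset.mem_Icc] at hk
    rw [Finset.mem_map]
    refine ⟨⟨k, by omega⟩, ?_, rfl⟩
    rw [hT, Finset.mem_filter]
    exact ⟨Finset.mem_univ _, hk.1.1, hk.2.1, hk.2.2⟩
  have hTA : T ⊆ A := by
    intro w hw
    rw [hT, Finset.mem_filter] at hw
    by_contra hwA
    have h3 := hA.2 v hv w hwA
    have h4 := h2 n f w hf hw.2.2.2
    have h5 := h1 n f v hf hv0
    have := hw.2.2.1
    have := hw.2.2.2
    omega
  have hvT : v ∉ T := by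
    rw [hT, Finset.mem_filter]
    intro h
    omega
  have h6 : (insert v T).card ≤ A.card :=
    Finset.card_le_card (Finset.insert_subset hv hTA)
  rw [Finset.card_insert_of_notMem hvT, hA.1] at h6
  omega

end Pool.Agent.Q39.CT
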