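import Pool.Agent.Q39.CT.Stmts

namespace Pool.Agent.Q39.CT

open Finset Filter Topology
open scoped Nat Classical

theorem taskD4 (h1 : TaskD1) (h2 : TaskD2) : TaskD4 := by
  intro n m s f A hf hA hm v hs h2v
  by_contra hvA
  set T : Finset (Fin (n + 1)) := univ.filter
    (fun w => (w : ℕ) = 0 ∨ s ≤ X n f w) with hT
  have hcard : T.card ≤ ((Finset.Icc 1 n).filter (fun k => s ≤ X n f k)).card + 1 := by
    rw [← Finset.card_map (Fin.valEmbedding : Fin (n + 1) ↪ ℕ) (s := T)]
    have h3 : T.map (Fin.valEmbedding : Fin (n + 1) ↪ ℕ) ⊆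
        insert 0 ((Finset.Icc 1 n).filter (fun k => s ≤ X n f k)) := by
      intro k hk
      rw [Finset.mem_map] at hk
      obtain ⟨w, hw, rfl⟩ := hk
      rw [hT, Finset.mem_filter] at hw
      rw [Finset.mem_insert, Finset.mem_filter, Finset.mem_Icc]
      have := w.isLt
      rcases hw.2 with h | h
      · exact Or.inl h
      · by_cases h0 : (w : ℕ) = 0
        · exact Or.inl h0
        · right
          refine ⟨⟨?_, ?_⟩, h⟩
          · show 1 ≤ (w : ℕ)
            omega
          · show (w : ℕ) ≤ n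
            omega
    exact (Finset.card_le_card h3).trans (Finset.card_insert_le _ _)
  have hAT : A ⊆ T.erase v := by
    intro w hw
    rw [Finset.mem_erase, hT, Finset.mem_filter]
    refine ⟨fun h => hvA (h ▸ hw), Finset.mem_univ _, ?_⟩
    by_cases h0 : (w : ℕ) = 0
    · exact Or.inl h0
    · right
      have h3 := hA.2 w hw v hvA
      have h4 := h2 n f v hf h2v
      have h5 := h1 n f w hf h0
      omega
  have hvT : v ∈ T := by
    rw [hT, Finset.mem_filter]
    exact ⟨Finset.mem_univ _, Or.inr hs⟩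
  have h6 := Finset.card_le_card hAT
  rw [Finset.card_erase_of_mem hvT, hA.1] at h6
  have h7 : 0 < T.card := Finset.card_pos.2 ⟨v, hvT⟩
  omega

end Pool.Agent.Q39.CT
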