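import Pool.Agent.Q39.CT.Stmts

namespace Pool.Agent.Q39.CT

open Finset

theorem taskEx : TaskEx := by
  intro n m f
  induction m with
  | zero =>
    intro _
    refine ⟨∅, ?_, ?_⟩
    · simp
    · intro v hv
      simp at hv
  | succ m ih =>
    intro hm
    obtain ⟨A, hA, hA2⟩ := ih (by omega)
    have hne : (Finset.univ \ A).Nonempty := by
      rw [← Finset.card_pos, Finset.card_sdiff_of_subset (Finset.subset_univ A), hA]
      simp
      omega
    obtain ⟨u, hu, hmin⟩ := Finset.exists_min_image (Finset.univ \ A) (psi n f) hne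
    rw [Finset.mem_sdiff] at hu
    refine ⟨insert u A, ?_, ?_⟩
    · rw [Finset.card_insert_of_notMem hu.2, hA]
    · intro v hv w hw
      rw [Finset.mem_insert, not_or] at hw
      rcases Finset.mem_insert.1 hv with rfl | hv
      · exact hmin w (by simp [hw.2])
      · exact hA2 v hv w hw.2

end Pool.Agent.Q39.CT
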