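import Pool.Agent.Q39.CT.Stmts

/-!
The deterministic conclusion, upper bound.
-/

namespace Pool.Agent.Q39.CT

open Finset Filter Topology
open scoped Nat Classical

/-- In `TaskUp` and `TaskLo` the set `A` is coerced to a set of natural numbers by the monad of
finite sets: this is the image of `A`. -/
theorem mem_do {n : ℕ} (A : Finset (Fin (n + 1))) (k : ℕ) :
    k ∈ (do let a ← A; pure (a : ℕ) : Finset ℕ) ↔ ∃ a ∈ A, (a : ℕ) = k := by
  refine (@Finset.mem_sup ℕ (Fin (n + 1)) (fun a b => Classical.propDecidable (a = b)) A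
    (fun a => pure (a : ℕ)) k).trans ?_
  simp only [Finset.pure_def, Finset.mem_singleton, eq_comm]

/-- The number of the elements of the coerced set. -/
theorem card_do {n : ℕ} (A : Finset (Fin (n + 1))) (K : ℕ) :
    ((do let a ← A; pure (a : ℕ) : Finset ℕ).filter (fun v => v < K)).card =
      (Finset.filter (fun v : Fin (n + 1) => (v : ℕ) < K) A).card := by
  have h : (do let a ← A; pure (a : ℕ) : Finset ℕ).filter (fun v => v < K) =
      (Finset.filter (fun v : Fin (n + 1) => (v : ℕ) < K) A).image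
        (fun v : Fin (n + 1) => (v : ℕ)) := by
    ext k
    rw [Finset.mem_filter, mem_do, Finset.mem_image]
    constructor
    · rintro ⟨⟨a, ha, rfl⟩, hk⟩
      exact ⟨a, Finset.mem_filter.2 ⟨ha, hk⟩, rfl⟩
    · rintro ⟨a, ha, rfl⟩
      rw [Finset.mem_filter] at ha
      exact ⟨⟨a, ha.1, rfl⟩, ha.2⟩
  rw [h, Finset.card_image_of_injective _ Fin.val_injective]

theorem taskUp (h : TaskD3) : TaskUp := by
  intro n m s M K f A hf hA hM hK hm
  have h1 : m ≤ ((Finset.Icc 1 n).filter
      (fun k => s ≤ X n f k ∧ 2 * X n f k ≤ n + 1)).card := by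
    have h2 : (Finset.Icc 1 M).filter (fun k => s ≤ X n f k) ⊆
        (Finset.Icc 1 n).filter (fun k => s ≤ X n f k ∧ 2 * X n f k ≤ n + 1) ∪
          (Finset.Icc 1 n).filter (fun k => n + 1 < 2 * X n f k) := by
      intro k hk
      simp only [Finset.mem_filter, Finset.mem_union, Finset.mem_Icc] at hk ⊢
      omega
    have h3 := (Finset.card_le_card h2).trans (Finset.card_union_le _ _)
    unfold NN HH at hm
    omega
  have h4 := h n m s f A hf hA h1
  have h5 : (do let a ← A; pure (a : ℕ) : Finset ℕ).filter (fun v => v < K) ⊆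
      insert 0 ((Finset.Icc 1 K).filter (fun k => s ≤ X n f k)) := by
    intro k hk
    rw [Finset.mem_filter, mem_do] at hk
    obtain ⟨⟨v, hv, rfl⟩, hK'⟩ := hk
    rw [Finset.mem_insert, Finset.mem_filter, Finset.mem_Icc]
    by_cases h0 : (v : ℕ) = 0
    · left
      exact h0
    · right
      exact ⟨⟨by omega, by omega⟩, h4 v hv h0⟩
  have h6 := Finset.card_le_card h5
  exact h6.trans (Finset.card_insert_le _ _)

/-- the same for the subset of `A` itself -/
theorem taskUp' (h : TaskD3) : ∀ (n m s M K : ℕ) (f : ℕ → ℕ) (A : Finset (Fin (n + 1))), Good f →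
    IsTop n f m A → M ≤ n → K ≤ n → m + HH n f ≤ NN n M s f →
    (Finset.filter (fun v : Fin (n + 1) => (v : ℕ) < K) A).card ≤ NN n K s f + 1 := by
  intro n m s M K f A hf hA hM hK hm
  rw [← card_do]
  exact taskUp h n m s M K f A hf hA hM hK hm

end Pool.Agent.Q39.CT
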