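import Pool.Agent.Q39.CT.Stmts
import Pool.Agent.Q39.CT.Up

namespace Pool.Agent.Q39.CT

open Finset Filter Topology
open scoped Nat Classical

/-- the fraction of the `K` first vertices that lie in `A` -/
noncomputable def RR (n K : ℕ) (A : Finset (Fin (n + 1))) : ℝ :=
  ((Finset.filter (fun v : Fin (n + 1) => (v : ℕ) < K) A).card : ℝ) / (K : ℝ)

/-- `φ(c)` -/
noncomputable def phi (c : ℝ) : ℝ := c * (1 - Real.exp (-1 / c))

/-- some set of most central vertices has a bad fraction -/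
def Bad (n K : ℕ) (c δ : ℝ) (f : ℕ → ℕ) : Prop :=
  ∃ A : Finset (Fin (n + 1)), IsTop n f ⌈c * K⌉₊ A ∧ δ < |RR n K A - phi c|

/-- the conditions on the means -/
structure Cond (c δ θ b₁ b₂ : ℝ) (L K n : ℕ) : Prop where
  h1 : (⌈c * K⌉₊ : ℝ) + 2 * (θ * K) < mu n (L * K) (aa (b₁ / K) n)
  h2 : 1 + mu n K (aa (b₁ / K) n) + θ * K ≤ (phi c + δ) * K
  h3 : mu n (L * K) (aa (b₂ / K) n) + 2 * (θ * K) + 1 ≤ (⌈c * K⌉₊ : ℝ)
  h4 : (phi c - δ) * K ≤ mu n K (aa (b₂ / K) n) - 2 * (θ * K) - 1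

theorem ind_or_le {p : Prop} {a b c d e g : Prop}
    (h : p → a ∨ b ∨ c ∨ d ∨ e ∨ g) : ind p ≤ ind a + ind b + ind c + ind d + ind e + ind g := by
  have n1 := ind_nonneg a
  have n2 := ind_nonneg b
  have n3 := ind_nonneg c
  have n4 := ind_nonneg d
  have n5 := ind_nonneg e
  have n6 := ind_nonneg g
  by_cases hp : p
  · rw [ind_true hp]
    rcases h hp with h | h | h | h | h | h
    · rw [ind_true h]; linarith
    · rw [ind_true h]; linarith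
    · rw [ind_true h]; linarith
    · rw [ind_true h]; linarith
    · rw [ind_true h]; linarith
    · rw [ind_true h]; linarith
  · rw [ind_false hp]; linarith

theorem bad_imp (hUp : TaskUp) (hLo : TaskLo) {c δ θ b₁ b₂ : ℝ} {L K n : ℕ}
    (hK : 1 ≤ K) (hKn : K ≤ n) (hL : L * K ≤ n) (H : Cond c δ θ b₁ b₂ L K n) {f : ℕ → ℕ}
    (hf : Good f) (hb : Bad n K c δ f) :
    (θ * K ≤ |(NN n (L * K) (aa (b₁ / K) n) f : ℝ) - mu n (L * K) (aa (b₁ / K) n)|) ∨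
    (θ * K ≤ (HH n f : ℝ)) ∨
    (θ * K ≤ |(NN n K (aa (b₁ / K) n) f : ℝ) - mu n K (aa (b₁ / K) n)|) ∨
    (θ * K ≤ |(NN n (L * K) (aa (b₂ / K) n) f : ℝ) - mu n (L * K) (aa (b₂ / K) n)|) ∨
    (θ * K ≤ (TT n (L * K) (aa (b₂ / K) n) f : ℝ)) ∨
    (θ * K ≤ |(NN n K (aa (b₂ / K) n) f : ℝ) - mu n K (aa (b₂ / K) n)|) := by
  by_contra hc
  simp only [not_or, not_le] at hc
  obtain ⟨c1, c2, c3, c4, c5, c6⟩ := hc
  obtain ⟨A, hA, hd⟩ := hb
  rw [abs_lt] at c1 c3 c4 c6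
  have hK' : (0 : ℝ) < K := by exact_mod_cast hK
  have u1 : ⌈c * K⌉₊ + HH n f ≤ NN n (L * K) (aa (b₁ / K) n) f := by
    have : ((⌈c * K⌉₊ + HH n f : ℕ) : ℝ) ≤ (NN n (L * K) (aa (b₁ / K) n) f : ℝ) := by
      push_cast
      have := H.h1
      linarith
    exact_mod_cast this
  have u2 := hUp n _ _ (L * K) K f A hf hA hL hKn u1
  have l1 : NN n (L * K) (aa (b₂ / K) n) f + TT n (L * K) (aa (b₂ / K) n) f + 1 ≤ ⌈c * K⌉₊ := by
    have : ((NN n (L * K) (aa (b₂ / K) n) f + TT n (L * K) (aa (b₂ / K) n) f + 1 : ℕ) : ℝ) ≤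
        (⌈c * K⌉₊ : ℝ) := by
      push_cast
      have := H.h3
      linarith
    exact_mod_cast this
  have l2 := hLo n _ _ (L * K) K f A hf hA hL hKn l1
  rw [card_do] at u2 l2
  have u3 : ((Finset.filter (fun v : Fin (n + 1) => (v : ℕ) < K) A).card : ℝ) ≤
      (NN n K (aa (b₁ / K) n) f : ℝ) + 1 := by exact_mod_cast u2
  have l3 : (NN n K (aa (b₂ / K) n) f : ℝ) ≤
      ((Finset.filter (fun v : Fin (n + 1) => (v : ℕ) < K) A).card : ℝ) + HH n f + 1 := by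
    exact_mod_cast l2
  have e1 : RR n K A ≤ phi c + δ := by
    unfold RR
    rw [div_le_iff₀ hK']
    have := H.h2
    linarith
  have e2 : phi c - δ ≤ RR n K A := by
    unfold RR
    rw [le_div_iff₀ hK']
    have := H.h4
    linarith
  have : |RR n K A - phi c| ≤ δ := by
    rw [abs_le]
    constructor <;> linarith
  linarith

theorem bad_bound (hUp : TaskUp) (hLo : TaskLo) (hCh : TaskCheb) (hTail : TaskTail) (hH : TaskH)
    {c δ θ b₁ b₂ : ℝ} {L K n : ℕ} (hθ : 0 < θ) (hb₂ : 0 < b₂) (hb₂K : b₂ < K)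
    (hK : 1 ≤ K) (hL1 : 1 ≤ L) (hL : L * K ≤ n) (H : Cond c δ θ b₁ b₂ L K n) :
    Ex n (fun f => ind (Bad n K c δ f)) ≤
      6 * (L * K : ℝ) * √(L * K : ℝ) / (θ * K) ^ 2 + 6 * (K : ℝ) * √(K : ℝ) / (θ * K) ^ 2 +
      1 / (θ * K) + Real.exp (-(b₂ * L)) / (b₂ * θ) := by
  have hK' : (0 : ℝ) < K := by exact_mod_cast hK
  have hKn : K ≤ n := le_trans (Nat.le_mul_of_pos_left K hL1) hL
  have hLK : 1 ≤ L * K := Nat.mul_pos hL1 hK
  have hτ : 0 < θ * K := by positivity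
  have h := Ex_mono (n := n) (g := fun f => ind (Bad n K c δ f))
    (h := fun f => ind (θ * K ≤ |(NN n (L * K) (aa (b₁ / K) n) f : ℝ) -
        mu n (L * K) (aa (b₁ / K) n)|) +
      ind (θ * K ≤ (HH n f : ℝ)) +
      ind (θ * K ≤ |(NN n K (aa (b₁ / K) n) f : ℝ) - mu n K (aa (b₁ / K) n)|) +
      ind (θ * K ≤ |(NN n (L * K) (aa (b₂ / K) n) f : ℝ) - mu n (L * K) (aa (b₂ / K) n)|) +
      ind (θ * K ≤ (TT n (L * K) (aa (b₂ / K) n) f : ℝ)) +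
      ind (θ * K ≤ |(NN n K (aa (b₂ / K) n) f : ℝ) - mu n K (aa (b₂ / K) n)|))
    (fun f hf => ind_or_le (bad_imp hUp hLo hK hKn hL H hf))
  refine h.trans ?_
  rw [Ex_add, Ex_add, Ex_add, Ex_add, Ex_add]
  have p1 := hCh n (L * K) (aa (b₁ / K) n) (θ * K) hLK hL (by unfold aa; omega) hτ
  have p2 := hH n (θ * K) hτ
  have p3 := hCh n K (aa (b₁ / K) n) (θ * K) hK hKn (by unfold aa; omega) hτ
  have p4 := hCh n (L * K) (aa (b₂ / K) n) (θ * K) hLK hL (by unfold aa; omega) hτ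
  have hx : b₂ / K < 1 := by rw [div_lt_one hK']; exact hb₂K
  have p5 := hTail n (L * K) (b₂ / K) (θ * K) hL (by omega) (by positivity) hx hτ
  have p6 := hCh n K (aa (b₂ / K) n) (θ * K) hK hKn (by unfold aa; omega) hτ
  have q5 : (1 - b₂ / K) ^ (L * K) / (b₂ / K * (θ * K)) ≤
      Real.exp (-(b₂ * L)) / (b₂ * θ) := by
    have e1 : b₂ / K * (θ * K) = b₂ * θ := by field_simp
    rw [e1]
    apply div_le_div_of_nonneg_right _ (by positivity)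
    have e2 : Real.exp (-(b₂ * L)) = Real.exp (-(b₂ / K)) ^ (L * K) := by
      rw [← Real.exp_nat_mul]
      congr 1
      push_cast
      field_simp
    rw [e2]
    apply pow_le_pow_left₀ (by linarith)
    have := Real.add_one_le_exp (-(b₂ / K))
    linarith
  push_cast at p1 p2 p3 p4 p5 p6
  have r1 : 6 * (L * K : ℝ) * √(L * K : ℝ) / (θ * K) ^ 2 =
    3 * (L * K : ℝ) * √(L * K : ℝ) / (θ * K) ^ 2 + 3 * (L * K : ℝ) * √(L * K : ℝ) / (θ * K) ^ 2 := by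
    ring
  have r2 : 6 * (K : ℝ) * √(K : ℝ) / (θ * K) ^ 2 =
    3 * (K : ℝ) * √(K : ℝ) / (θ * K) ^ 2 + 3 * (K : ℝ) * √(K : ℝ) / (θ * K) ^ 2 := by
    ring
  rw [r1, r2]
  linarith

theorem small_K {θ ε : ℝ} (hθ : 0 < θ) (hε : 0 < ε) {L : ℕ} :
    ∀ᶠ K : ℕ in atTop, 6 * (L * K : ℝ) * √(L * K : ℝ) / (θ * K) ^ 2 +
      6 * (K : ℝ) * √(K : ℝ) / (θ * K) ^ 2 + 1 / (θ * K) ≤ ε := by
  have h1 : Tendsto (fun K : ℕ => (6 * L * √(L : ℝ) / θ ^ 2 + 6 / θ ^ 2) / √(K : ℝ)) atTop (𝓝 0) := by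
    apply Tendsto.const_div_atTop
    exact Real.tendsto_sqrt_atTop.comp tendsto_natCast_atTop_atTop
  have h2 : Tendsto (fun K : ℕ => (1 / θ) / (K : ℝ)) atTop (𝓝 0) :=
    Tendsto.const_div_atTop tendsto_natCast_atTop_atTop _
  have h3 := h1.add h2
  rw [add_zero] at h3
  filter_upwards [h3.eventually_lt_const hε, eventually_ge_atTop 1] with K hK hK1
  refine le_trans (le_of_eq ?_) hK.le
  have hK' : (0 : ℝ) < K := by exact_mod_cast hK1
  have hs : √(K : ℝ) * √(K : ℝ) = K := Real.mul_self_sqrt hK'.le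
  have hs0 : √(K : ℝ) ≠ 0 := by positivity
  rw [Real.sqrt_mul (Nat.cast_nonneg L)]
  obtain ⟨s, hsdef⟩ : ∃ s, √(K : ℝ) = s := ⟨_, rfl⟩
  rw [hsdef] at hs hs0 ⊢
  rw [← hs]
  field_simp

theorem cond_eventually (hQ : TaskQLim) (hS : TaskSum) {c δ θ b₁ b₂ : ℝ} {L : ℕ} (hc : 1 < c)
    (hb₁ : 0 < b₁) (hb₂ : 0 < b₂) (hθ : 0 < θ) (hL : 1 ≤ L)
    (g1 : c + 2 * θ < (1 - Real.exp (-(b₁ * L))) / b₁)
    (g2 : (1 - Real.exp (-b₁)) / b₁ + θ < phi c + δ)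
    (g3 : 1 / b₂ + 2 * θ < c)
    (g4 : phi c - δ < (1 - Real.exp (-b₂)) / b₂ - 2 * θ) :
    ∀ᶠ K : ℕ in atTop, ∀ᶠ n : ℕ in atTop, Cond c δ θ b₁ b₂ L K n := by
  have hi : Tendsto (fun K : ℕ => (1 : ℝ) / (K : ℝ)) atTop (𝓝 0) :=
    Tendsto.const_div_atTop tendsto_natCast_atTop_atTop _
  have t1 := (hS b₁ L hb₁ hL).sub hi
  have t2 := (hS b₁ 1 hb₁ le_rfl).add hi
  have t3 := (hS b₂ L hb₂ hL).add hi
  have t4 := (hS b₂ 1 hb₂ le_rfl).sub hi
  simp only [Nat.cast_one, mul_one, one_mul] at t2 t4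
  rw [sub_zero] at t1 t4
  rw [add_zero] at t2 t3
  have g3' : (1 - Real.exp (-(b₂ * L))) / b₂ < c - 2 * θ := by
    have : (1 - Real.exp (-(b₂ * L))) / b₂ ≤ 1 / b₂ := by
      apply div_le_div_of_nonneg_right _ hb₂.le
      have := Real.exp_pos (-(b₂ * L))
      linarith
    linarith
  filter_upwards [t1.eventually_const_lt g1, t2.eventually_lt_const (show _ < phi c + δ - θ by linarith),
    t3.eventually_lt_const g3', t4.eventually_const_lt (show phi c - δ + 2 * θ < _ by linarith),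
    eventually_ge_atTop 1, tendsto_natCast_atTop_atTop.eventually_gt_atTop b₁,
    tendsto_natCast_atTop_atTop.eventually_gt_atTop b₂] with K k1 k2 k3 k4 hK hKb₁ hKb₂
  have hK' : (0 : ℝ) < K := by exact_mod_cast hK
  have hx₁ : b₁ / K < 1 := by rw [div_lt_one hK']; exact hKb₁
  have hx₂ : b₂ / K < 1 := by rw [div_lt_one hK']; exact hKb₂
  have hx₁' : 0 < b₁ / K := by positivity
  have hx₂' : 0 < b₂ / K := by positivity
  have m1 := hQ (b₁ / K) (L * K) hx₁' hx₁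
  have m2 := hQ (b₁ / K) K hx₁' hx₁
  have m3 := hQ (b₂ / K) (L * K) hx₂' hx₂
  have m4 := hQ (b₂ / K) K hx₂' hx₂
  have hceil1 : (⌈c * K⌉₊ : ℝ) < c * K + 1 := Nat.ceil_lt_add_one (by positivity)
  have hceil2 : c * K ≤ (⌈c * K⌉₊ : ℝ) := Nat.le_ceil _
  have j1 : (⌈c * K⌉₊ : ℝ) + 2 * (θ * K) < ∑ k ∈ Finset.Icc 1 (L * K), (1 - b₁ / K) ^ k := by
    rw [← sub_pos] at k1
    have := mul_pos k1 hK'
    have e : ((∑ k ∈ Finset.Icc 1 (L * K), (1 - b₁ / K) ^ k) / (K : ℝ) - 1 / (K : ℝ) -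
      (c + 2 * θ)) * K = (∑ k ∈ Finset.Icc 1 (L * K), (1 - b₁ / K) ^ k) - 1 - (c + 2 * θ) * K := by
      field_simp
    rw [e] at this
    linarith
  have j2 : ∑ k ∈ Finset.Icc 1 K, (1 - b₁ / K) ^ k < (phi c + δ) * K - 1 - θ * K := by
    rw [← sub_pos] at k2
    have := mul_pos k2 hK'
    have e : (phi c + δ - θ - ((∑ k ∈ Finset.Icc 1 K, (1 - b₁ / K) ^ k) / (K : ℝ) + 1 / (K : ℝ)))
      * K = (phi c + δ) * K - θ * K - (∑ k ∈ Finset.Icc 1 K, (1 - b₁ / K) ^ k) - 1 := by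
      field_simp
      ring
    rw [e] at this
    linarith
  have j3 : ∑ k ∈ Finset.Icc 1 (L * K), (1 - b₂ / K) ^ k < (⌈c * K⌉₊ : ℝ) - 2 * (θ * K) - 1 := by
    rw [← sub_pos] at k3
    have := mul_pos k3 hK'
    have e : (c - 2 * θ - ((∑ k ∈ Finset.Icc 1 (L * K), (1 - b₂ / K) ^ k) / (K : ℝ) + 1 / (K : ℝ)))
      * K = c * K - 2 * (θ * K) - (∑ k ∈ Finset.Icc 1 (L * K), (1 - b₂ / K) ^ k) - 1 := by
      field_simp
      ring
    rw [e] at this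
    linarith
  have j4 : (phi c - δ) * K + 2 * (θ * K) + 1 < ∑ k ∈ Finset.Icc 1 K, (1 - b₂ / K) ^ k := by
    rw [← sub_pos] at k4
    have := mul_pos k4 hK'
    have e : ((∑ k ∈ Finset.Icc 1 K, (1 - b₂ / K) ^ k) / (K : ℝ) - 1 / (K : ℝ) -
      (phi c - δ + 2 * θ)) * K = (∑ k ∈ Finset.Icc 1 K, (1 - b₂ / K) ^ k) - 1 -
        ((phi c - δ) * K + 2 * (θ * K)) := by
      field_simp
    rw [e] at this
    linarith
  filter_upwards [m1.eventually_const_lt j1, m2.eventually_lt_const j2, m3.eventually_lt_const j3,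
    m4.eventually_const_lt j4] with n n1 n2 n3 n4
  exact ⟨n1, by linarith, by linarith, by linarith⟩

/-- the main bound -/
theorem main (hUp : TaskUp) (hLo : TaskLo) (hCh : TaskCheb) (hTail : TaskTail) (hH : TaskH)
    (hQ : TaskQLim) (hS : TaskSum) (hP : TaskParams) {c δ ε : ℝ} (hc : 1 < c) (hδ : 0 < δ)
    (hε : 0 < ε) :
    ∀ᶠ K : ℕ in atTop, ∀ᶠ n : ℕ in atTop, Ex n (fun f => ind (Bad n K c δ f)) ≤ ε := by
  obtain ⟨b₁, b₂, θ, L, hb₁, hb₂, hθ, hL, g1, g2, g3, g4, g5⟩ := hP c δ (ε / 2) hc hδ (by linarith)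
  filter_upwards [cond_eventually hQ hS hc hb₁ hb₂ hθ hL g1 g2 g3 g4,
    small_K hθ (show 0 < ε / 2 by linarith) (L := L), eventually_ge_atTop 1,
    tendsto_natCast_atTop_atTop.eventually_gt_atTop b₂] with K k1 k2 k3 k4
  filter_upwards [k1, eventually_ge_atTop (L * K)] with n n1 n2
  have := bad_bound hUp hLo hCh hTail hH hθ hb₂ k4 k3 hL n2 n1
  linarith

end Pool.Agent.Q39.CT
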