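import Pool.Agent.Q39.CT.Stmts

namespace Pool.Agent.Q39.CT

open Finset Filter Topology
open scoped Nat Classical

theorem desc_two (n m k : ℕ) (h : 2 * m ≤ n) : m.descFactorial k * 2 ^ k ≤ n.descFactorial k := by
  induction k with
  | zero => simp
  | succ k ih =>
    rw [Nat.descFactorial_succ, Nat.descFactorial_succ]
    have h1 : (m - k) * 2 ≤ n - k := by omega
    calc (m - k) * m.descFactorial k * 2 ^ (k + 1)
        = ((m - k) * 2) * (m.descFactorial k * 2 ^ k) := by ring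
      _ ≤ (n - k) * n.descFactorial k := Nat.mul_le_mul h1 ih

theorem choose_two (n m k : ℕ) (h : 2 * m ≤ n) : m.choose k * 2 ^ k ≤ n.choose k := by
  have h1 := desc_two n m k h
  rw [Nat.descFactorial_eq_factorial_mul_choose, Nat.descFactorial_eq_factorial_mul_choose,
    mul_assoc] at h1
  exact Nat.le_of_mul_le_mul_left h1 k.factorial_pos

theorem qq_half (n k : ℕ) (hk : k ≤ n) : qq n k ((n + 1) / 2 + 1) ≤ (1 / 2 : ℝ) ^ k := by
  unfold qq
  have h0 : (0 : ℝ) < (n.choose k : ℝ) := by exact_mod_cast Nat.choose_pos hk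
  rw [div_le_iff₀ h0]
  have h1 := choose_two n (n + 1 - ((n + 1) / 2 + 1)) k (by omega)
  have h2 : (((n + 1 - ((n + 1) / 2 + 1)).choose k : ℕ) : ℝ) * 2 ^ k ≤ (n.choose k : ℝ) := by
    exact_mod_cast h1
  have h3 : (1 / 2 : ℝ) ^ k * 2 ^ k = 1 := by rw [← mul_pow]; norm_num
  have h4 : (0 : ℝ) < (1 / 2 : ℝ) ^ k := by positivity
  calc (((n + 1 - ((n + 1) / 2 + 1)).choose k : ℕ) : ℝ)
      = (1 / 2 : ℝ) ^ k * ((((n + 1 - ((n + 1) / 2 + 1)).choose k : ℕ) : ℝ) * 2 ^ k) := by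
        rw [mul_left_comm, h3, mul_one]
    _ ≤ (1 / 2 : ℝ) ^ k * (n.choose k : ℝ) := mul_le_mul_of_nonneg_left h2 h4.le

theorem card_filter_ind (s : Finset ℕ) (p : ℕ → Prop) [DecidablePred p] :
    ((s.filter p).card : ℝ) = ∑ k ∈ s, ind (p k) := by
  rw [Finset.card_filter, Nat.cast_sum]
  exact Finset.sum_congr rfl fun k _ => by by_cases h : p k <;> simp [ind, h]

/-- Markov's inequality -/
theorem markov (n : ℕ) (g : (ℕ → ℕ) → ℝ) (τ : ℝ) (hτ : 0 < τ) (hg : ∀ f, 0 ≤ g f) :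
    Ex n (fun f => ind (τ ≤ g f)) ≤ Ex n g / τ := by
  have h : Ex n (fun f => ind (τ ≤ g f)) ≤ Ex n (fun f => (1 / τ) * g f) := by
    refine Ex_mono fun f _ => ?_
    by_cases h : τ ≤ g f
    · rw [ind_true h, one_div, inv_mul_eq_div, le_div_iff₀ hτ, one_mul]
      exact h
    · rw [ind_false h]
      have := hg f
      positivity
  rw [Ex_mul] at h
  rwa [one_div, inv_mul_eq_div] at h

theorem sum_half (n : ℕ) : ∑ k ∈ Finset.Icc 1 n, (1 / 2 : ℝ) ^ k = 1 - (1 / 2 : ℝ) ^ n := by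
  induction n with
  | zero => simp
  | succ n ih =>
    rw [Finset.sum_Icc_succ_top (by omega), ih, pow_succ]
    ring

theorem taskH : TaskH := by
  intro n τ hτ
  refine (markov n (fun f => (HH n f : ℝ)) τ hτ (fun f => Nat.cast_nonneg _)).trans ?_
  apply div_le_div_of_nonneg_right _ hτ.le
  have e : Ex n (fun f => (HH n f : ℝ)) =
      ∑ k ∈ Finset.Icc 1 n, qq n k ((n + 1) / 2 + 1) := by
    have e1 : Ex n (fun f => (HH n f : ℝ)) =
        Ex n (fun f => ∑ k ∈ Finset.Icc 1 n, ind ((n + 1) / 2 + 1 ≤ X n f k)) := by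
      refine Ex_congr fun f _ => ?_
      unfold HH
      rw [card_filter_ind]
      refine Finset.sum_congr rfl fun k _ => ?_
      have : (n + 1 < 2 * X n f k) ↔ ((n + 1) / 2 + 1 ≤ X n f k) := by omega
      simp only [this]
    rw [e1, Ex_sum]
    refine Finset.sum_congr rfl fun k hk => ?_
    rw [Finset.mem_Icc] at hk
    exact law_one hk.1 hk.2 (by omega)
  rw [e]
  calc ∑ k ∈ Finset.Icc 1 n, qq n k ((n + 1) / 2 + 1)
      ≤ ∑ k ∈ Finset.Icc 1 n, (1 / 2 : ℝ) ^ k :=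
        Finset.sum_le_sum fun k hk => qq_half n k (Finset.mem_Icc.1 hk).2
    _ = 1 - (1 / 2 : ℝ) ^ n := sum_half n
    _ ≤ 1 := by
        have : (0 : ℝ) < (1 / 2 : ℝ) ^ n := by positivity
        linarith

end Pool.Agent.Q39.CT
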