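import Pool.Agent.Q39.CT.Urn

namespace Pool.Agent.Q39.CT

open Finset
open scoped Nat Classical

/-- indicator -/
noncomputable def ind (p : Prop) : ℝ := if p then 1 else 0

theorem ind_nonneg (p : Prop) : 0 ≤ ind p := by unfold ind; split_ifs <;> norm_num
theorem ind_le_one (p : Prop) : ind p ≤ 1 := by unfold ind; split_ifs <;> norm_num
theorem ind_true {p : Prop} (h : p) : ind p = 1 := if_pos h
theorem ind_false {p : Prop} (h : ¬ p) : ind p = 0 := if_neg h

/-- `P(X_k(n) ≥ a)` -/
noncomputable def qq (n k a : ℕ) : ℝ := ((n + 1 - a).choose k : ℝ) / (n.choose k : ℝ)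

theorem qq_nonneg (n k a : ℕ) : 0 ≤ qq n k a := by unfold qq; positivity

theorem qq_rec {n k a : ℕ} (hk : 1 ≤ k) (hkn : k ≤ n) (ha : 1 ≤ a) :
    qq (n + 1) k a = qq n k a + ((a : ℝ) - 1) / ((n : ℝ) + 1) * (qq n k (a - 1) - qq n k a) := by
  unfold qq
  have h1 : (n.choose k : ℝ) ≠ 0 := by exact_mod_cast (Nat.choose_pos hkn).ne'
  have h2 : ((n + 1).choose k : ℝ) ≠ 0 := by exact_mod_cast (Nat.choose_pos (by omega)).ne'
  have h3 : (n.choose k : ℝ) * (n + 1) = ((n + 1).choose k : ℝ) * ((n : ℝ) + 1 - k) := by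
    have := Nat.choose_mul_succ_eq n k
    have h := congrArg (Nat.cast : ℕ → ℝ) this
    push_cast [Nat.cast_sub (show k ≤ n + 1 by omega)] at h
    linarith
  by_cases hb : a ≤ n + 1
  · obtain ⟨b, hb'⟩ : ∃ b, n + 1 - a = b := ⟨_, rfl⟩
    have e1 : n + 1 + 1 - a = b + 1 := by omega
    have e2 : n + 1 - (a - 1) = b + 1 := by omega
    rw [hb', e1, e2]
    have ea : (a : ℝ) = (n : ℝ) + 1 - b := by
      have : a + b = n + 1 := by omega
      have := congrArg (Nat.cast : ℕ → ℝ) this
      push_cast at this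
      linarith
    have h4 : (b.choose k : ℝ) * (b + 1) = ((b + 1).choose k : ℝ) * ((b : ℝ) + 1 - k) := by
      by_cases hkb : k ≤ b + 1
      · have := Nat.choose_mul_succ_eq b k
        have h := congrArg (Nat.cast : ℕ → ℝ) this
        push_cast [Nat.cast_sub hkb] at h
        linarith
      · rw [Nat.choose_eq_zero_of_lt (by omega : b < k),
          Nat.choose_eq_zero_of_lt (by omega : b + 1 < k)]
        simp
    have hn : (n : ℝ) + 1 ≠ 0 := by positivity
    rw [div_eq_iff h2, ea]
    field_simp
    have h5 : (n.choose k : ℝ) * ((n : ℝ) + 1) * ((b + 1).choose k : ℝ) =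
        ((n + 1).choose k : ℝ) * (((n : ℝ) + 1 - k) * ((b + 1).choose k : ℝ)) := by
      rw [h3]; ring
    have h6 : ((n : ℝ) + 1 - k) * ((b + 1).choose k : ℝ) =
        (b.choose k : ℝ) * (b + 1) + ((n : ℝ) - b) * ((b + 1).choose k : ℝ) := by
      rw [h4]; ring
    rw [h6] at h5
    linear_combination h5
  · have e1 : n + 1 + 1 - a = 0 := by omega
    have e2 : n + 1 - (a - 1) = 0 := by omega
    have e3 : n + 1 - a = 0 := by omega
    rw [e1, e2, e3, Nat.choose_eq_zero_of_lt (by omega : 0 < k)]
    simp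

theorem qq_anti {n k a b : ℕ} (h : a ≤ b) : qq n k b ≤ qq n k a := by
  unfold qq
  apply div_le_div_of_nonneg_right _ (by positivity)
  exact_mod_cast Nat.choose_le_choose k (by omega)

theorem qq_mono {N n k a : ℕ} (hk : 1 ≤ k) (hkN : k ≤ N) (hN : N ≤ n) (ha : 1 ≤ a) :
    qq N k a ≤ qq n k a := by
  induction n, hN using Nat.le_induction with
  | base => exact le_rfl
  | succ m hm ih =>
    refine ih.trans ?_
    rw [qq_rec hk (hkN.trans hm) ha]
    have h1 : qq m k a ≤ qq m k (a - 1) := qq_anti (by omega)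
    have h2 : (0 : ℝ) ≤ ((a : ℝ) - 1) / ((m : ℝ) + 1) := by
      have : (1 : ℝ) ≤ a := by exact_mod_cast ha
      have : (0 : ℝ) ≤ (a : ℝ) - 1 := by linarith
      positivity
    nlinarith

theorem X_le {f : ℕ → ℕ} (hf : Good f) {n k : ℕ} (hk : k ≤ n) : X n f k ≤ n + 1 - k := by
  unfold X
  have h : (range (n + 1)).filter (sub f k) ⊆ Finset.Icc k n := by
    intro v hv
    rw [Finset.mem_filter, Finset.mem_range] at hv
    rw [Finset.mem_Icc]
    exact ⟨sub_le hf hv.2, by omega⟩
  refine (Finset.card_le_card h).trans ?_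
  rw [Nat.card_Icc]

theorem X_pos {f : ℕ → ℕ} {n k : ℕ} (hk : k ≤ n) : 1 ≤ X n f k := by
  unfold X
  refine Finset.card_pos.2 ⟨k, ?_⟩
  rw [Finset.mem_filter, Finset.mem_range]
  exact ⟨by omega, sub_self f k⟩

theorem X_base {f : ℕ → ℕ} (hf : Good f) (k : ℕ) : X k f k = 1 := by
  have h1 := X_le hf (le_refl k)
  have h2 := X_pos (f := f) (le_refl k)
  omega

/-- one marked vertex -/
theorem law_one {n k a : ℕ} (hk : 1 ≤ k) (hkn : k ≤ n) (ha : 1 ≤ a) :
    Ex n (fun f => ind (a ≤ X n f k)) = qq n k a := by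
  induction n, hkn using Nat.le_induction generalizing a with
  | base =>
    have e : Ex k (fun f => ind (a ≤ X k f k)) = Ex k (fun _ => ind (a ≤ 1)) :=
      Ex_congr fun f hf => by rw [X_base hf]
    rw [e, Ex_const]
    unfold qq
    by_cases h : a ≤ 1
    · have : a = 1 := by omega
      subst this
      simp [ind]
    · rw [ind_false h, Nat.choose_eq_zero_of_lt (by omega : k + 1 - a < k)]
      simp
  | succ n hn ih =>
    rw [step_one hn (fun x => ind (a ≤ x)), qq_rec hk hn ha]
    have hn1 : (n : ℝ) + 1 ≠ 0 := by positivity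
    have e : ∀ f, Good f → (X n f k * ind (a ≤ X n f k + 1) +
        ((n : ℝ) + 1 - X n f k) * ind (a ≤ X n f k)) / ((n : ℝ) + 1) =
        ind (a ≤ X n f k) + ((a : ℝ) - 1) / ((n : ℝ) + 1) *
          (ind (a - 1 ≤ X n f k) - ind (a ≤ X n f k)) := by
      intro f _
      have h1 : (a ≤ X n f k + 1) ↔ (a - 1 ≤ X n f k) := by omega
      rw [show ind (a ≤ X n f k + 1) = ind (a - 1 ≤ X n f k) by simp only [h1]]
      by_cases h2 : a ≤ X n f k
      · rw [ind_true h2, ind_true (by omega)]
        field_simp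
        ring
      · rw [ind_false h2]
        by_cases h3 : a - 1 ≤ X n f k
        · have h4 : X n f k = a - 1 := by omega
          rw [ind_true h3, h4]
          push_cast [Nat.cast_sub ha]
          field_simp
          ring
        · rw [ind_false h3]; simp
    rw [Ex_congr e, Ex_add, Ex_mul, Ex_sub, ih ha]
    by_cases h : a = 1
    · subst h; simp
    · rw [ih (by omega)]

/-- the size of the subtree of `k` -/
noncomputable def vv (n k t : ℕ) : ℝ := Ex n (fun f => ind (X n f k = t))

theorem vv_nonneg (n k t : ℕ) : 0 ≤ vv n k t := by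
  have := Ex_mono (n := n) (g := fun _ => 0) (h := fun f => ind (X n f k = t))
    (fun f _ => ind_nonneg _)
  rwa [Ex_const] at this

theorem vv_zero {n k t : ℕ} (hk : k ≤ n) (ht : n + 1 - k < t ∨ t = 0) : vv n k t = 0 := by
  have : vv n k t = Ex n (fun _ => 0) := Ex_congr fun f hf => by
    apply ind_false
    have h1 := X_le hf hk
    have h2 := X_pos (f := f) hk
    omega
  rw [this, Ex_const]

theorem vv_rec {n k t : ℕ} (hk : k ≤ n) (ht : 1 ≤ t) :
    vv (n + 1) k t = (1 - (t : ℝ) / ((n : ℝ) + 1)) * vv n k t +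
      ((t : ℝ) - 1) / ((n : ℝ) + 1) * vv n k (t - 1) := by
  have hn1 : (n : ℝ) + 1 ≠ 0 := by positivity
  unfold vv
  rw [step_one hk (fun x => ind (x = t)), ← Ex_mul, ← Ex_mul, ← Ex_add]
  refine Ex_congr fun f _ => ?_
  by_cases h : X n f k = t
  · have h1 : ¬ X n f k + 1 = t := by omega
    have h2 : ¬ X n f k = t - 1 := by omega
    rw [ind_true h, ind_false h1, ind_false h2, h]
    field_simp
    ring
  · by_cases h1 : X n f k = t - 1
    · have h2 : X n f k + 1 = t := by omega
      rw [ind_false h, ind_true h1, ind_true h2, h1]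
      push_cast [Nat.cast_sub ht]
      field_simp
      ring
    · have h2 : ¬ X n f k + 1 = t := by omega
      rw [ind_false h, ind_false h1, ind_false h2]
      ring

theorem A_base {f : ℕ → ℕ} (hf : Good f) (j m : ℕ) :
    A (m + 1) f j (m + 1) = ((range (m + 1)).filter (sub f j)).card := by
  unfold A
  congr 1
  ext v
  simp only [Finset.mem_filter, Finset.mem_range]
  constructor
  · rintro ⟨h1, h2, h3⟩
    refine ⟨?_, h2⟩
    by_contra h4
    have : v = m + 1 := by omega
    subst this
    exact h3 (sub_self f _)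
  · rintro ⟨h1, h2⟩
    refine ⟨by omega, h2, fun h3 => ?_⟩
    have := sub_le hf h3
    omega

theorem X_card_update {f : ℕ → ℕ} (hf : Good f) (j m a : ℕ) :
    ((range (m + 1)).filter (sub (Function.update f (m + 1) a) j)).card = X m f j := by
  unfold X
  congr 1
  exact Finset.filter_congr fun v hv =>
    sub_update hf a j (Nat.lt_succ_iff.1 (Finset.mem_range.1 hv))

theorem Good.update {f : ℕ → ℕ} (hf : Good f) {m a : ℕ} (ha : a ≤ m) :
    Good (Function.update f (m + 1) a) := by
  refine ⟨?_, fun v => ?_⟩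
  · rw [Function.update_of_ne (by omega)]; exact hf.zero
  · by_cases h : v = m
    · subst h; rw [Function.update_self]; exact ha
    · rw [Function.update_of_ne (by omega)]; exact hf.le v

/-- the joint law -/
theorem law_two {n j k a t : ℕ} (hj : 1 ≤ j) (hjk : j < k) (hkn : k ≤ n) (ha : 1 ≤ a) :
    Ex n (fun f => ind (a ≤ A n f j k) * ind (X n f k = t)) = qq (n - t) j a * vv n k t := by
  induction n, hkn using Nat.le_induction generalizing a t with
  | base =>
    obtain ⟨m, rfl⟩ : ∃ m, k = m + 1 := ⟨k - 1, by omega⟩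
    have e : vv (m + 1) (m + 1) t = ind (1 = t) := by
      have : vv (m + 1) (m + 1) t = Ex (m + 1) (fun _ => ind (1 = t)) :=
        Ex_congr fun f hf => by rw [X_base hf]
      rw [this, Ex_const]
    rw [e]
    by_cases ht : 1 = t
    · subst ht
      rw [ind_true rfl, mul_one]
      have e1 : Ex (m + 1) (fun f => ind (a ≤ A (m + 1) f j (m + 1)) * ind (X (m + 1) f (m + 1) = 1))
          = Ex (m + 1) (fun f => ind (a ≤ ((range (m + 1)).filter (sub f j)).card)) :=
        Ex_congr fun f hf => by rw [A_base hf, X_base hf, ind_true rfl, mul_one]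
      rw [e1, Ex_succ]
      have e2 : Ex m (fun f => (∑ b ∈ range (m + 1), ind (a ≤ ((range (m + 1)).filter
          (sub (Function.update f (m + 1) b) j)).card)) / ((m : ℝ) + 1)) =
          Ex m (fun f => ind (a ≤ X m f j)) := by
        refine Ex_congr fun f hf => ?_
        rw [Finset.sum_congr rfl (fun b _ => by rw [X_card_update hf])]
        rw [Finset.sum_const, Finset.card_range, nsmul_eq_mul]
        push_cast
        field_simp
      rw [e2, law_one hj (by omega) ha]
      simp
    · rw [ind_false ht, mul_zero]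
      have : Ex (m + 1) (fun f => ind (a ≤ A (m + 1) f j (m + 1)) * ind (X (m + 1) f (m + 1) = t))
          = Ex (m + 1) (fun _ => 0) := Ex_congr fun f hf => by
        rw [X_base hf, ind_false ht, mul_zero]
      rw [this, Ex_const]
  | succ n hn ih =>
    have hn1 : (n : ℝ) + 1 ≠ 0 := by positivity
    by_cases ht : t = 0
    · subst ht
      rw [vv_zero (by omega) (Or.inr rfl), mul_zero]
      have : Ex (n + 1) (fun f => ind (a ≤ A (n + 1) f j k) * ind (X (n + 1) f k = 0))
          = Ex (n + 1) (fun _ => 0) := Ex_congr fun f hf => by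
        have := X_pos (f := f) (show k ≤ n + 1 by omega)
        rw [ind_false (show ¬ X (n + 1) f k = 0 by omega), mul_zero]
      rw [this, Ex_const]
    have ht1 : 1 ≤ t := by omega
    rw [step_two (show j ≤ n by omega) hn (fun x y => ind (a ≤ x) * ind (y = t))]
    have e : ∀ f, Good f → ((X n f k : ℝ) * (ind (a ≤ A n f j k) * ind (X n f k + 1 = t)) +
        (A n f j k : ℝ) * (ind (a ≤ A n f j k + 1) * ind (X n f k = t)) +
        ((n : ℝ) + 1 - X n f k - A n f j k) * (ind (a ≤ A n f j k) * ind (X n f k = t)))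
          / ((n : ℝ) + 1) =
        ((1 - (t : ℝ) / ((n : ℝ) + 1)) * (ind (a ≤ A n f j k) * ind (X n f k = t)) +
        ((a : ℝ) - 1) / ((n : ℝ) + 1) * (ind (a - 1 ≤ A n f j k) * ind (X n f k = t) -
          ind (a ≤ A n f j k) * ind (X n f k = t))) +
        ((t : ℝ) - 1) / ((n : ℝ) + 1) * (ind (a ≤ A n f j k) * ind (X n f k = t - 1)) := by
      intro f _
      have h1 : (a ≤ A n f j k + 1) ↔ (a - 1 ≤ A n f j k) := by omega
      rw [show ind (a ≤ A n f j k + 1) = ind (a - 1 ≤ A n f j k) by simp only [h1]]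
      have key : (A n f j k : ℝ) * ind (a - 1 ≤ A n f j k) - (A n f j k : ℝ) * ind (a ≤ A n f j k) =
          ((a : ℝ) - 1) * (ind (a - 1 ≤ A n f j k) - ind (a ≤ A n f j k)) := by
        by_cases h2 : a ≤ A n f j k
        · rw [ind_true h2, ind_true (by omega)]; ring
        · rw [ind_false h2]
          by_cases h3 : a - 1 ≤ A n f j k
          · have h4 : A n f j k = a - 1 := by omega
            rw [ind_true h3, h4]
            push_cast [Nat.cast_sub ha]
            ring
          · rw [ind_false h3]; ring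
      by_cases h : X n f k = t
      · have h1 : ¬ X n f k + 1 = t := by omega
        have h2 : ¬ X n f k = t - 1 := by omega
        rw [ind_true h, ind_false h1, ind_false h2, h]
        field_simp
        linear_combination key
      · by_cases h1 : X n f k = t - 1
        · have h2 : X n f k + 1 = t := by omega
          rw [ind_false h, ind_true h1, ind_true h2, h1]
          push_cast [Nat.cast_sub ht1]
          field_simp
          ring
        · have h2 : ¬ X n f k + 1 = t := by omega
          rw [ind_false h, ind_false h1, ind_false h2]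
          ring
    rw [Ex_congr e, Ex_add, Ex_add, Ex_mul, Ex_mul, Ex_sub, Ex_mul, ih ha, ih ha]
    have e9 : ((a : ℝ) - 1) * Ex n (fun f => ind (a - 1 ≤ A n f j k) * ind (X n f k = t)) =
        ((a : ℝ) - 1) * (qq (n - t) j (a - 1) * vv n k t) := by
      by_cases h : a = 1
      · subst h; simp
      · rw [ih (by omega)]
    have e10 : ((a : ℝ) - 1) / ((n : ℝ) + 1) * (Ex n (fun f => ind (a - 1 ≤ A n f j k) *
        ind (X n f k = t)) - qq (n - t) j a * vv n k t) =
        ((a : ℝ) - 1) / ((n : ℝ) + 1) * (qq (n - t) j (a - 1) * vv n k t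
          - qq (n - t) j a * vv n k t) := by
      rw [div_mul_eq_mul_div, div_mul_eq_mul_div, mul_sub, e9, ← mul_sub]
    rw [e10, vv_rec hn ht1]
    have e11 : n - (t - 1) = n + 1 - t := by omega
    rw [e11]
    by_cases hv : n + 1 - k < t
    · rw [vv_zero hn (Or.inl hv)]; ring
    · obtain ⟨N, hN⟩ : ∃ N, n - t = N := ⟨_, rfl⟩
      have e12 : n + 1 - t = N + 1 := by omega
      have hNj : j ≤ N := by omega
      rw [e12, hN, qq_rec hj hNj ha]
      have et : (t : ℝ) = (n : ℝ) - N := by
        have : t + N = n := by omega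
        have := congrArg (Nat.cast : ℕ → ℝ) this
        push_cast at this
        linarith
      have hN1 : (N : ℝ) + 1 ≠ 0 := by positivity
      rw [et]
      field_simp
      ring

end Pool.Agent.Q39.CT
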