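import Pool.Agent.Q39.CT.Up

/-!
The deterministic conclusion, lower bound.
-/

namespace Pool.Agent.Q39.CT

open Finset Filter Topology
open scoped Nat Classical

/-- the statement for the subset of `A` -/
theorem taskLo' (h : TaskD4) : ∀ (n m s M K : ℕ) (f : ℕ → ℕ) (A : Finset (Fin (n + 1))), Good f →
    IsTop n f m A → M ≤ n → K ≤ n → NN n M s f + TT n M s f + 1 ≤ m →
    NN n K s f ≤ (Finset.filter (fun v : Fin (n + 1) => (v : ℕ) < K) A).card + HH n f + 1 := by
  intro n m s M K f A hf hA hM hK hm
  have h1 : ((Finset.Icc 1 n).filter (fun k => s ≤ X n f k)).card + 1 ≤ m := by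
    have h2 : (Finset.Icc 1 n).filter (fun k => s ≤ X n f k) ⊆
        (Finset.Icc 1 M).filter (fun k => s ≤ X n f k) ∪
          (Finset.Ioc M n).filter (fun k => s ≤ X n f k) := by
      intro k hk
      simp only [Finset.mem_filter, Finset.mem_union, Finset.mem_Icc, Finset.mem_Ioc] at hk ⊢
      omega
    have h3 := (Finset.card_le_card h2).trans (Finset.card_union_le _ _)
    unfold NN TT at hm
    omega
  have h4 := h n m s f A hf hA h1
  have h5 : (Finset.Icc 1 K).filter (fun k => s ≤ X n f k) ⊆
      insert K ((Finset.filter (fun v : Fin (n + 1) => (v : ℕ) < K) A).image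
        (fun v : Fin (n + 1) => (v : ℕ))) ∪
        (Finset.Icc 1 n).filter (fun k => n + 1 < 2 * X n f k) := by
    intro k hk
    rw [Finset.mem_filter, Finset.mem_Icc] at hk
    rw [Finset.mem_union, Finset.mem_insert, Finset.mem_image, Finset.mem_filter, Finset.mem_Icc]
    by_cases h0 : n + 1 < 2 * X n f k
    · right
      exact ⟨⟨hk.1.1, by omega⟩, h0⟩
    · left
      by_cases h7 : k = K
      · left
        exact h7
      · right
        refine ⟨⟨k, by omega⟩, ?_, rfl⟩
        rw [Finset.mem_filter]
        exact ⟨h4 ⟨k, by omega⟩ hk.2 (by simpa using Nat.le_of_not_lt h0),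
          lt_of_le_of_ne hk.1.2 h7⟩
  have h6 := Finset.card_le_card h5
  have h8 := h6.trans (Finset.card_union_le _ _)
  have h9 := Finset.card_insert_le K
    ((Finset.filter (fun v : Fin (n + 1) => (v : ℕ) < K) A).image
      (fun v : Fin (n + 1) => (v : ℕ)))
  rw [Finset.card_image_of_injective _ Fin.val_injective] at h9
  unfold NN HH
  omega

theorem taskLo (h : TaskD4) : TaskLo := by
  intro n m s M K f A hf hA hM hK hm
  have h1 := taskLo' h n m s M K f A hf hA hM hK hm
  rw [← card_do] at h1
  exact h1

end Pool.Agent.Q39.CT
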