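import Pool.Agent.Q39.CT.Anc

/-! # TaskPair (helper150) -/

namespace Pool.Agent.Q39.CT

open Finset
open scoped Nat Classical

theorem A_eq_X {f : ℕ → ℕ} (hf : Good f) {n j k : ℕ} (hjk : j ≤ k) (h : ¬ sub f j k) :
    A n f j k = X n f j := by
  unfold A X
  congr 1
  refine Finset.filter_congr fun v _ => ?_
  constructor
  · exact fun h' => h'.1
  · exact fun h' => ⟨h', fun hk => h (sub_chain hf h' hk hjk)⟩

theorem ind_le_sum {f : ℕ → ℕ} (hf : Good f) {n k a : ℕ} (hk : k ≤ n) :
    ind (a ≤ X n f k) = ∑ t ∈ Finset.Icc a (n + 1), ind (X n f k = t) := by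
  have h1 := X_le hf hk
  by_cases h : a ≤ X n f k
  · rw [ind_true h, Finset.sum_eq_single (X n f k)]
    · rw [ind_true rfl]
    · intro t _ ht
      exact ind_false (fun h' => ht h'.symm)
    · intro h'
      exact absurd (Finset.mem_Icc.2 ⟨h, by omega⟩) h'
  · rw [ind_false h]
    symm
    refine Finset.sum_eq_zero fun t ht => ind_false ?_
    have := Finset.mem_Icc.1 ht
    omega

theorem taskPair : TaskPair := by
  intro n j k a hj hjk hkn ha
  have e1 : Ex n (fun f => ind (a ≤ X n f j) * ind (a ≤ X n f k)) ≤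
      Ex n (fun f => ind (sub f j k) + ind (a ≤ A n f j k) * ind (a ≤ X n f k)) := by
    refine Ex_mono fun f hf => ?_
    by_cases h : sub f j k
    · rw [ind_true h]
      have h1 := ind_le_one (a ≤ X n f j)
      have h2 := ind_le_one (a ≤ X n f k)
      have h3 := ind_nonneg (a ≤ X n f j)
      have h4 := ind_nonneg (a ≤ X n f k)
      have h5 := ind_nonneg (a ≤ A n f j k)
      nlinarith [mul_nonneg h5 h4]
    · rw [ind_false h, A_eq_X hf hjk.le h]
      linarith
  refine e1.trans ?_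
  rw [Ex_add, taskAnc n j k hj hjk hkn]
  gcongr
  have e2 : Ex n (fun f => ind (a ≤ A n f j k) * ind (a ≤ X n f k)) =
      ∑ t ∈ Finset.Icc a (n + 1), qq (n - t) j a * vv n k t := by
    rw [Ex_congr (h := fun f => ∑ t ∈ Finset.Icc a (n + 1),
      ind (a ≤ A n f j k) * ind (X n f k = t)) (fun f hf => by
        rw [ind_le_sum hf hkn, Finset.mul_sum]), Ex_sum]
    exact Finset.sum_congr rfl fun t _ => law_two hj hjk hkn ha
  have e3 : qq n k a = ∑ t ∈ Finset.Icc a (n + 1), vv n k t := by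
    rw [← law_one (by omega) hkn ha, Ex_congr (h := fun f => ∑ t ∈ Finset.Icc a (n + 1),
      ind (X n f k = t)) (fun f hf => by rw [ind_le_sum hf hkn]), Ex_sum]
    rfl
  rw [e2, e3, Finset.mul_sum]
  refine Finset.sum_le_sum fun t _ => ?_
  by_cases h : j ≤ n - t
  · exact mul_le_mul_of_nonneg_right (qq_mono hj h (by omega) ha) (vv_nonneg _ _ _)
  · rw [vv_zero hkn (Or.inl (by omega))]
    simp

end Pool.Agent.Q39.CT
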