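import Pool.Agent.Q39.CT.Stmts

/-!
# Choice of the parameters
-/

namespace Pool.Agent.Q39.CT

open Finset Filter Topology
open scoped Nat Classical

theorem phi_cont {c : ℝ} (hc : 0 < c) :
    ContinuousAt (fun b : ℝ => (1 - Real.exp (-b)) / b) (1 / c) := by
  have h : (1 / c : ℝ) ≠ 0 := by positivity
  exact ContinuousAt.div (by fun_prop) continuousAt_id h

theorem phi_val {c : ℝ} (hc : 0 < c) :
    (1 - Real.exp (-(1 / c))) / (1 / c) = c * (1 - Real.exp (-1 / c)) := by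
  have : -(1 / c) = -1 / c := by ring
  rw [this]
  field_simp

theorem taskParams : TaskParams := by
  intro c δ ε hc hδ hε
  have hc0 : 0 < c := by linarith
  have hic : (0 : ℝ) < 1 / c := by positivity
  set ph : ℝ → ℝ := fun b => (1 - Real.exp (-b)) / b with hph
  have hcont : Tendsto ph (𝓝 (1 / c)) (𝓝 (c * (1 - Real.exp (-1 / c)))) := by
    rw [← phi_val hc0]
    exact phi_cont hc0
  -- `b₁`
  have e1 : ∀ᶠ b in 𝓝[<] (1 / c), ph b < c * (1 - Real.exp (-1 / c)) + δ / 2 :=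
    (hcont.mono_left nhdsWithin_le_nhds).eventually_lt_const (by linarith)
  have e2 : ∀ᶠ b in 𝓝[<] (1 / c), (0 : ℝ) < b :=
    (tendsto_id.mono_left nhdsWithin_le_nhds).eventually_const_lt hic
  obtain ⟨b₁, ⟨h1, h2⟩, h3⟩ := ((e1.and e2).and self_mem_nhdsWithin).exists
  have h3 : b₁ < 1 / c := h3
  -- `b₂`
  have e3 : ∀ᶠ b in 𝓝[>] (1 / c), c * (1 - Real.exp (-1 / c)) - δ / 2 < ph b :=
    (hcont.mono_left nhdsWithin_le_nhds).eventually_const_lt (by linarith)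
  obtain ⟨b₂, h4, h5⟩ := (e3.and self_mem_nhdsWithin).exists
  have h5 : 1 / c < b₂ := h5
  have hb₂ : 0 < b₂ := hic.trans h5
  have k1 : c < 1 / b₁ := by
    rw [lt_div_iff₀ h2]
    rw [lt_div_iff₀ hc0] at h3
    linarith
  have k2 : 1 / b₂ < c := by
    rw [div_lt_iff₀ hb₂]
    rw [div_lt_iff₀ hc0] at h5
    linarith
  -- `θ`
  obtain ⟨θ, t0, t1, t2, t3⟩ : ∃ θ : ℝ, 0 < θ ∧ c + 2 * θ < 1 / b₁ ∧ 1 / b₂ + 2 * θ < c ∧
      2 * θ < δ / 2 := by
    refine ⟨min (min ((1 / b₁ - c) / 4) ((c - 1 / b₂) / 4)) (δ / 8), ?_, ?_, ?_, ?_⟩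
    · refine lt_min (lt_min ?_ ?_) ?_ <;> linarith
    · have := (min_le_left (min ((1 / b₁ - c) / 4) ((c - 1 / b₂) / 4)) (δ / 8)).trans
        (min_le_left _ _)
      linarith
    · have := (min_le_left (min ((1 / b₁ - c) / 4) ((c - 1 / b₂) / 4)) (δ / 8)).trans
        (min_le_right _ _)
      linarith
    · have := min_le_right (min ((1 / b₁ - c) / 4) ((c - 1 / b₂) / 4)) (δ / 8)
      linarith
  -- `L`
  have l0 : ∀ b : ℝ, 0 < b → Tendsto (fun L : ℕ => Real.exp (-(b * L))) atTop (𝓝 0) := by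
    intro b hb
    refine Real.tendsto_exp_neg_atTop_nhds_zero.comp ?_
    exact tendsto_natCast_atTop_atTop.const_mul_atTop hb
  have l1 : Tendsto (fun L : ℕ => (1 - Real.exp (-(b₁ * L))) / b₁) atTop (𝓝 (1 / b₁)) := by
    have := ((l0 b₁ h2).const_sub 1).div_const b₁
    rw [sub_zero] at this
    exact this
  have l2 : Tendsto (fun L : ℕ => Real.exp (-(b₂ * L)) / (b₂ * θ)) atTop (𝓝 0) := by
    have := (l0 b₂ hb₂).div_const (b₂ * θ)
    rw [zero_div] at this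
    exact this
  obtain ⟨L, ⟨q1, q2⟩, q3⟩ := (((l1.eventually_const_lt t1).and
    (l2.eventually_lt_const hε)).and (eventually_ge_atTop 1)).exists
  refine ⟨b₁, b₂, θ, L, h2, hb₂, t0, q3, q1, ?_, t2, ?_, q2⟩
  · have : (1 - Real.exp (-b₁)) / b₁ < c * (1 - Real.exp (-1 / c)) + δ / 2 := h1
    linarith
  · have : c * (1 - Real.exp (-1 / c)) - δ / 2 < (1 - Real.exp (-b₂)) / b₂ := h4
    linarith

end Pool.Agent.Q39.CT
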