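import Pool.Agent.Q39.CT.Final

namespace Pool.Agent.Q39.CT

open Finset Filter Topology
open scoped Nat Classical

/-- The probability, for the uniform attachment tree on `{0, ..., n}` with ties broken uniformly
at random, that the fraction of the `K` earliest vertices that lie among the `⌈cK⌉` most central
ones differs from `φ(c)` by more than `δ`. -/
noncomputable def prob (c δ : ℝ) (K n : ℕ) : ℝ :=
  (∑ ω : Om n,
    (((Finset.univ : Finset (Finset (Fin (n + 1)))).filter
        (fun A => IsTop n (par ω) ⌈c * K⌉₊ A ∧ δ < |RR n K A - phi c|)).card : ℝ) /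
      (((Finset.univ : Finset (Finset (Fin (n + 1)))).filter
        (fun A => IsTop n (par ω) ⌈c * K⌉₊ A)).card : ℝ)) / (n ! : ℝ)

theorem prob_nonneg (c δ : ℝ) (K n : ℕ) : 0 ≤ prob c δ K n := by
  unfold prob
  positivity

theorem prob_le (c δ : ℝ) (K n : ℕ) : prob c δ K n ≤ Ex n (fun f => ind (Bad n K c δ f)) := by
  unfold prob Ex
  apply div_le_div_of_nonneg_right _ (by positivity)
  apply Finset.sum_le_sum
  intro ω _
  show _ ≤ ind (Bad n K c δ (par ω))
  by_cases h : Bad n K c δ (par ω)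
  · rw [ind_true h]
    apply div_le_one_of_le₀ _ (by positivity)
    have : (Finset.univ : Finset (Finset (Fin (n + 1)))).filter
        (fun A => IsTop n (par ω) ⌈c * K⌉₊ A ∧ δ < |RR n K A - phi c|) ⊆
        (Finset.univ : Finset (Finset (Fin (n + 1)))).filter
        (fun A => IsTop n (par ω) ⌈c * K⌉₊ A) :=
      Finset.monotone_filter_right _ (fun A _ hA => hA.1)
    exact_mod_cast Finset.card_le_card this
  · rw [ind_false h]
    have : (Finset.univ : Finset (Finset (Fin (n + 1)))).filter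
        (fun A => IsTop n (par ω) ⌈c * K⌉₊ A ∧ δ < |RR n K A - phi c|) = ∅ := by
      apply Finset.filter_eq_empty_iff.2
      intro A _ hA
      exact h ⟨A, hA⟩
    rw [this]
    simp

theorem count_eq (n : ℕ) (p : (ℕ → ℕ) → Prop) :
    Ex n (fun f => ind (p f)) =
      ((Finset.univ.filter (fun ω : Om n => p (par ω))).card : ℝ) / (n ! : ℝ) := by
  unfold Ex ind
  congr 1
  rw [Finset.sum_boole]

theorem limsup_main (hM : ∀ {c δ ε : ℝ}, 1 < c → 0 < δ → 0 < ε →
    ∀ᶠ K : ℕ in atTop, ∀ᶠ n : ℕ in atTop, Ex n (fun f => ind (Bad n K c δ f)) ≤ ε)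
    {c δ : ℝ} (hc : 1 < c) (hδ : 0 < δ) :
    Tendsto (fun K : ℕ => limsup (fun n : ℕ => prob c δ K n) atTop) atTop (𝓝 0) := by
  have hb : ∀ K : ℕ, IsBoundedUnder (· ≤ ·) atTop (fun n : ℕ => prob c δ K n) := by
    intro K
    refine ⟨1, Filter.eventually_map.2 (Filter.Eventually.of_forall fun n => ?_)⟩
    refine (prob_le c δ K n).trans ?_
    have := Ex_mono (n := n) (g := fun f => ind (Bad n K c δ f)) (h := fun _ => 1)
      (fun f _ => ind_le_one _)
    rwa [Ex_const] at this
  have hcb : ∀ K : ℕ, IsCoboundedUnder (· ≤ ·) atTop (fun n : ℕ => prob c δ K n) := by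
    intro K
    apply IsBoundedUnder.isCoboundedUnder_le
    exact ⟨0, Filter.eventually_map.2 (Filter.Eventually.of_forall fun n => prob_nonneg c δ K n)⟩
  rw [Metric.tendsto_nhds]
  intro ε hε
  filter_upwards [hM hc hδ (show 0 < ε / 2 by linarith)] with K hK
  have h1 : limsup (fun n : ℕ => prob c δ K n) atTop ≤ ε / 2 :=
    limsup_le_of_le (hcb K) (hK.mono fun n hn => (prob_le c δ K n).trans hn)
  have h2 : 0 ≤ limsup (fun n : ℕ => prob c δ K n) atTop :=
    le_limsup_of_frequently_le (Filter.Frequently.of_forall fun n => prob_nonneg c δ K n) (hb K)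
  rw [Real.dist_eq, sub_zero, abs_of_nonneg h2]
  linarith

end Pool.Agent.Q39.CT
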