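import Pool.Agent.Q39.CT.Stmts

set_option autoImplicit false

namespace Pool.Agent.Q39.CT

open Finset Filter Topology Asymptotics
open scoped Nat Classical

theorem tendsto_qq (x : ℝ) (k : ℕ) (hx : 0 < x) (hx1 : x < 1) :
    Tendsto (fun n : ℕ => qq n k (aa x n)) atTop (𝓝 ((1 - x) ^ k)) := by
  -- the numerator index
  have hb : Tendsto (fun n : ℕ => ((n - ⌈x * (n : ℝ)⌉₊ : ℕ) : ℝ) / n) atTop (𝓝 (1 - x)) := by
    have h1 : Tendsto (fun n : ℕ => ((⌈x * (n : ℝ)⌉₊ : ℝ)) / n) atTop (𝓝 x) :=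
      (tendsto_nat_ceil_mul_div_atTop hx.le).comp tendsto_natCast_atTop_atTop
    have h2 : Tendsto (fun n : ℕ => 1 - ((⌈x * (n : ℝ)⌉₊ : ℝ)) / n) atTop (𝓝 (1 - x)) :=
      tendsto_const_nhds.sub h1
    refine h2.congr' ?_
    filter_upwards [eventually_ge_atTop 1] with n hn
    have hn0 : (0 : ℝ) < n := by exact_mod_cast hn
    have hc : ⌈x * (n : ℝ)⌉₊ ≤ n := by
      apply Nat.ceil_le.2
      nlinarith
    rw [Nat.cast_sub hc, sub_div, div_self hn0.ne']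
  have hb' : Tendsto (fun n : ℕ => n - ⌈x * (n : ℝ)⌉₊) atTop atTop := by
    have : Tendsto (fun n : ℕ => ((n - ⌈x * (n : ℝ)⌉₊ : ℕ) : ℝ)) atTop atTop := by
      have h := hb.pos_mul_atTop (by linarith : (0 : ℝ) < 1 - x) tendsto_natCast_atTop_atTop
      refine h.congr' ?_
      filter_upwards [eventually_ge_atTop 1] with n hn
      have hn0 : (n : ℝ) ≠ 0 := by
        have : 0 < n := hn
        exact_mod_cast this.ne'
      field_simp
    exact tendsto_natCast_atTop_iff.1 this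
  have e1 : (fun n : ℕ => (((n - ⌈x * (n : ℝ)⌉₊).choose k : ℕ) : ℝ)) ~[atTop]
      (fun n : ℕ => ((n - ⌈x * (n : ℝ)⌉₊ : ℕ) : ℝ) ^ k / (k ! : ℝ)) :=
    (isEquivalent_choose k).comp_tendsto hb'
  have e2 : (fun n : ℕ => ((n.choose k : ℕ) : ℝ)) ~[atTop]
      (fun n : ℕ => (n : ℝ) ^ k / (k ! : ℝ)) := isEquivalent_choose k
  have e3 := e1.div e2
  have h4 : Tendsto (fun n : ℕ => (((n - ⌈x * (n : ℝ)⌉₊ : ℕ) : ℝ) ^ k / (k ! : ℝ)) /
      ((n : ℝ) ^ k / (k ! : ℝ))) atTop (𝓝 ((1 - x) ^ k)) := by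
    have h := hb.pow k
    refine h.congr' ?_
    filter_upwards [eventually_ge_atTop 1] with n hn
    have hn0 : (n : ℝ) ≠ 0 := by
      have : 0 < n := hn
      exact_mod_cast this.ne'
    have hk : (k ! : ℝ) ≠ 0 := by exact_mod_cast k.factorial_ne_zero
    rw [div_pow]
    field_simp
  have h5 := (e3.tendsto_nhds_iff).2 h4
  refine h5.congr fun n => ?_
  have e : n + 1 - (⌈x * (n : ℝ)⌉₊ + 1) = n - ⌈x * (n : ℝ)⌉₊ := by omega
  show _ = qq n k (aa x n)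
  unfold qq aa
  rw [e]
  rfl

theorem taskQLim : TaskQLim := by
  intro x M hx hx1
  unfold mu
  exact tendsto_finset_sum _ fun k _ => tendsto_qq x k hx hx1

end Pool.Agent.Q39.CT
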