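import Pool.Agent.Q39.CT.Stmts

set_option autoImplicit false

namespace Pool.Agent.Q39.CT

open Finset Filter Topology
open scoped Nat Classical

theorem choose_mul_pow_le {b n : ℕ} (hb : b ≤ n) (k : ℕ) (hk : k ≤ n) :
    b.choose k * n ^ k ≤ n.choose k * b ^ k := by
  induction k with
  | zero => simp
  | succ k ih =>
    have ih' := ih (by omega)
    have h1 : (b - k) * n ≤ (n - k) * b := by
      rcases le_total b k with h | h
      · rw [Nat.sub_eq_zero_of_le h]; simp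
      · obtain ⟨c, rfl⟩ := Nat.exists_eq_add_of_le h
        obtain ⟨d, rfl⟩ := Nat.exists_eq_add_of_le hb
        have e1 : k + c - k = c := by omega
        have e2 : k + c + d - k = c + d := by omega
        rw [e1, e2]
        nlinarith
    have h2 : b.choose (k + 1) * (k + 1) = b.choose k * (b - k) := Nat.choose_succ_right_eq b k
    have h3 : n.choose (k + 1) * (k + 1) = n.choose k * (n - k) := Nat.choose_succ_right_eq n k
    have h4 : (b.choose (k + 1) * n ^ (k + 1)) * (k + 1) ≤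
        (n.choose (k + 1) * b ^ (k + 1)) * (k + 1) := by
      calc (b.choose (k + 1) * n ^ (k + 1)) * (k + 1)
          = (b.choose (k + 1) * (k + 1)) * (n ^ k * n) := by ring
        _ = (b.choose k * n ^ k) * ((b - k) * n) := by rw [h2]; ring
        _ ≤ (n.choose k * b ^ k) * ((n - k) * b) := Nat.mul_le_mul ih' h1
        _ = (n.choose (k + 1) * (k + 1)) * (b ^ k * b) := by rw [h3]; ring
        _ = _ := by ring
    exact Nat.le_of_mul_le_mul_right h4 (by omega)

theorem taskQUpper : TaskQUpper := by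
  intro x n k hx hx1 hn hk
  unfold qq aa
  have hc : ⌈x * n⌉₊ ≤ n := by
    apply Nat.ceil_le.2
    have : (0 : ℝ) ≤ n := by positivity
    nlinarith
  have e : n + 1 - (⌈x * (n : ℝ)⌉₊ + 1) = n - ⌈x * (n : ℝ)⌉₊ := by omega
  rw [e]
  obtain ⟨b, hb⟩ : ∃ b, n - ⌈x * (n : ℝ)⌉₊ = b := ⟨_, rfl⟩
  rw [hb]
  have hbn : b ≤ n := by omega
  have hbr : (b : ℝ) ≤ (1 - x) * n := by
    have h1 : b + ⌈x * (n : ℝ)⌉₊ = n := by omega
    have h2 : (b : ℝ) + (⌈x * (n : ℝ)⌉₊ : ℝ) = n := by exact_mod_cast h1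
    have h3 := Nat.le_ceil (x * (n : ℝ))
    linarith
  have hn0 : (0 : ℝ) < n := by exact_mod_cast hn
  have h := choose_mul_pow_le hbn k hk
  have hR : (b.choose k : ℝ) * (n : ℝ) ^ k ≤ (n.choose k : ℝ) * (b : ℝ) ^ k := by exact_mod_cast h
  have hpos : (0 : ℝ) < (n.choose k : ℝ) := by exact_mod_cast Nat.choose_pos hk
  rw [div_le_iff₀ hpos]
  have h5 : (b : ℝ) ^ k ≤ ((1 - x) * n) ^ k := pow_le_pow_left₀ (by positivity) hbr k
  rw [mul_pow] at h5
  have h6 : (b.choose k : ℝ) * (n : ℝ) ^ k ≤ ((1 - x) ^ k * (n.choose k : ℝ)) * (n : ℝ) ^ k := by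
    calc (b.choose k : ℝ) * (n : ℝ) ^ k ≤ (n.choose k : ℝ) * (b : ℝ) ^ k := hR
      _ ≤ (n.choose k : ℝ) * ((1 - x) ^ k * (n : ℝ) ^ k) :=
          mul_le_mul_of_nonneg_left h5 hpos.le
      _ = _ := by ring
  exact le_of_mul_le_mul_right h6 (by positivity)

end Pool.Agent.Q39.CT
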