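import Pool.Agent.Q39.CT.Stmts

namespace Pool.Agent.Q39.CT

open Finset Filter Topology
open scoped Nat Classical

theorem taskSqrt : TaskSqrt := by
  intro M
  induction M with
  | zero => simp
  | succ M ih =>
    rw [Finset.sum_Icc_succ_top (by omega)]
    have h1 : √(M : ℝ) + 1 / ((((M + 1 : ℕ) : ℝ)) + 1) ≤ √(((M + 1 : ℕ) : ℝ)) := by
      push_cast
      obtain ⟨s, hs⟩ : ∃ s, √((M : ℝ) + 1) = s := ⟨_, rfl⟩
      obtain ⟨r, hr⟩ : ∃ r, √(M : ℝ) = r := ⟨_, rfl⟩
      have hM : (0 : ℝ) ≤ M := Nat.cast_nonneg M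
      have hs2 : s * s = (M : ℝ) + 1 := by rw [← hs]; exact Real.mul_self_sqrt (by linarith)
      have hr2 : r * r = (M : ℝ) := by rw [← hr]; exact Real.mul_self_sqrt hM
      have hs0 : 0 ≤ s := by rw [← hs]; exact Real.sqrt_nonneg _
      have hr0 : 0 ≤ r := by rw [← hr]; exact Real.sqrt_nonneg _
      have hrs : r ≤ s := by rw [← hs, ← hr]; exact Real.sqrt_le_sqrt (by linarith)
      rw [hs, hr]
      have h2 : 1 / ((M : ℝ) + 1 + 1) ≤ s - r := by
        rw [div_le_iff₀ (by linarith)]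
        have h3 : s + r ≤ (M : ℝ) + 1 + 1 := by nlinarith [sq_nonneg (s - 1)]
        have h4 : (s - r) * (s + r) = 1 := by ring_nf; nlinarith
        nlinarith [mul_le_mul_of_nonneg_left h3 (sub_nonneg.2 hrs)]
      linarith
    linarith

end Pool.Agent.Q39.CT
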