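import Pool.Agent.Q39.CT.Law

/-!
# Blueprint for MP_6a6beb_pr (the most central vertices of the uniform attachment tree)

`Urn.lean`: attachments `Om n`, parent function `par ω`, `Good f`, average `Ex n g` over `Om n`,
`sub f k v` (v is in the subtree of k), `X n f k` (size of the subtree of k in {0..n}).
`Law.lean`: `ind p`, `qq n k a = C(n+1-a,k)/C(n,k)`, `law_one`, `law_two`.
-/

namespace Pool.Agent.Q39.CT

open Finset Filter Topology
open scoped Nat Classical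

/-- the number of `k` in `[1, M]` with a subtree of size at least `a` -/
noncomputable def NN (n M a : ℕ) (f : ℕ → ℕ) : ℕ :=
  ((Finset.Icc 1 M).filter (fun k => a ≤ X n f k)).card

/-- the number of `k` in `(M, n]` with a subtree of size at least `a` -/
noncomputable def TT (n M a : ℕ) (f : ℕ → ℕ) : ℕ :=
  ((Finset.Ioc M n).filter (fun k => a ≤ X n f k)).card

/-- the number of `k` in `[1, n]` with a subtree of size more than `(n+1)/2` -/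
noncomputable def HH (n : ℕ) (f : ℕ → ℕ) : ℕ :=
  ((Finset.Icc 1 n).filter (fun k => n + 1 < 2 * X n f k)).card

/-- mean of `NN` -/
noncomputable def mu (n M a : ℕ) : ℝ := ∑ k ∈ Finset.Icc 1 M, qq n k a

/-- the threshold -/
noncomputable def aa (x : ℝ) (n : ℕ) : ℕ := ⌈x * n⌉₊ + 1

/-- The tree on `{0, ..., n}` with parent function `f`. -/
def TG (n : ℕ) (f : ℕ → ℕ) : SimpleGraph (Fin (n + 1)) :=
  SimpleGraph.fromRel (fun u v : Fin (n + 1) => f (u : ℕ) = (v : ℕ))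

/-- The number of vertices in the largest component left after deleting `v`. -/
noncomputable def psi (n : ℕ) (f : ℕ → ℕ) (v : Fin (n + 1)) : ℕ :=
  sSup {c : ℕ | ∃ C : ((TG n f).induce {w | w ≠ v}).ConnectedComponent, c = Nat.card C.supp}

/-- `A` is a set of `m` most central vertices. -/
def IsTop (n : ℕ) (f : ℕ → ℕ) (m : ℕ) (A : Finset (Fin (n + 1))) : Prop :=
  A.card = m ∧ ∀ v ∈ A, ∀ w, w ∉ A → psi n f v ≤ psi n f w

/-- 1. mean size of a subtree and probability that `j` is an ancestor of `k`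
(`step_one` with `F = Nat.cast`, induction on n; `Ex_succ`, `sub_update_last`, `sub_update`) -/
def TaskAnc : Prop := ∀ n j k : ℕ, 1 ≤ j → j < k → k ≤ n →
  Ex n (fun f => ind (sub f j k)) = 1 / ((j : ℝ) + 1)

/-- 2. pair bound: if not `sub f j k` then `A n f j k = X n f j` (`sub_chain`), and
`ind (a ≤ X k) = ∑_{t=a}^{n+1} ind (X k = t)`, `law_two`, `qq_mono` (qq (n-t) j a ≤ qq n j a; for
n - t < j the factor vv vanishes or use qq (n-t) j a = 0 / vv_zero), `law_one` -/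
def TaskPair : Prop := ∀ n j k a : ℕ, 1 ≤ j → j < k → k ≤ n → 1 ≤ a →
  Ex n (fun f => ind (a ≤ X n f j) * ind (a ≤ X n f k)) ≤ 1 / ((j : ℝ) + 1) + qq n j a * qq n k a

/-- 3. `∑_{j=1}^{M} 1/(j+1) ≤ √M` -/
def TaskSqrt : Prop := ∀ M : ℕ, ∑ j ∈ Finset.Icc 1 M, 1 / ((j : ℝ) + 1) ≤ √(M : ℝ)

/-- 4. second moment: expand the square of a sum of indicators -/
def TaskVar : Prop := ∀ n M a : ℕ, 1 ≤ M → M ≤ n → 1 ≤ a →
  Ex n (fun f => ((NN n M a f : ℝ) - mu n M a) ^ 2) ≤ 3 * M * √(M : ℝ)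

/-- 5. Chebyshev -/
def TaskCheb : Prop := ∀ (n M a : ℕ) (τ : ℝ), 1 ≤ M → M ≤ n → 1 ≤ a → 0 < τ →
  Ex n (fun f => ind (τ ≤ |(NN n M a f : ℝ) - mu n M a|)) ≤ 3 * M * √(M : ℝ) / τ ^ 2

/-- 6. `C(n - ⌈xn⌉, k)/C(n,k) ≤ (1-x)^k` -/
def TaskQUpper : Prop := ∀ (x : ℝ) (n k : ℕ), 0 ≤ x → x ≤ 1 → 1 ≤ n → k ≤ n →
  qq n k (aa x n) ≤ (1 - x) ^ k

/-- 7. `C(n - ⌈xn⌉, k)/C(n,k) → (1-x)^k`, summed over `k ∈ [1, M]` -/
def TaskQLim : Prop := ∀ (x : ℝ) (M : ℕ), 0 < x → x < 1 →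
  Tendsto (fun n : ℕ => mu n M (aa x n)) atTop (𝓝 (∑ k ∈ Finset.Icc 1 M, (1 - x) ^ k))

/-- 8. Markov and 6: the vertices in `(M, n]` -/
def TaskTail : Prop := ∀ (n M : ℕ) (x τ : ℝ), M ≤ n → 1 ≤ n → 0 < x → x < 1 → 0 < τ →
  Ex n (fun f => ind (τ ≤ (TT n M (aa x n) f : ℝ))) ≤ (1 - x) ^ M / (x * τ)

/-- 9. Markov: `n + 1 < 2 * X` iff `(n+1)/2 + 1 ≤ X`, and
`qq n k ((n+1)/2+1) = C(n/2, k)/C(n,k) ≤ 2^{-k}`, so the mean is at most 1 -/
def TaskH : Prop := ∀ (n : ℕ) (τ : ℝ), 0 < τ → Ex n (fun f => ind (τ ≤ (HH n f : ℝ))) ≤ 1 / τ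

/-- 10. geometric sums (`Real.tendsto_one_add_div_pow_exp`) -/
def TaskSum : Prop := ∀ (b : ℝ) (L : ℕ), 0 < b → 1 ≤ L →
  Tendsto (fun K : ℕ => (∑ k ∈ Finset.Icc 1 (L * K), (1 - b / K) ^ k) / (K : ℝ)) atTop
    (𝓝 ((1 - Real.exp (-(b * L))) / b))

/-- 11. choice of the parameters (continuity of `b ↦ (1 - exp (-b))/b` at `1/c`;
first `η`, then `θ`, then `L`; note `(1-η²)/(1-η) = 1+η`) -/
def TaskParams : Prop := ∀ c δ ε : ℝ, 1 < c → 0 < δ → 0 < ε → ∃ (b₁ b₂ θ : ℝ) (L : ℕ),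
  0 < b₁ ∧ 0 < b₂ ∧ 0 < θ ∧ 1 ≤ L ∧
  c + 2 * θ < (1 - Real.exp (-(b₁ * L))) / b₁ ∧
  (1 - Real.exp (-b₁)) / b₁ + θ < c * (1 - Real.exp (-1 / c)) + δ ∧
  1 / b₂ + 2 * θ < c ∧
  c * (1 - Real.exp (-1 / c)) - δ < (1 - Real.exp (-b₂)) / b₂ - 2 * θ ∧
  Real.exp (-(b₂ * L)) / (b₂ * θ) < ε

/-- 12. the complement of the subtree of `v` stays connected (walk along parents to 0) -/
def TaskD1 : Prop := ∀ (n : ℕ) (f : ℕ → ℕ) (v : Fin (n + 1)), Good f → (v : ℕ) ≠ 0 →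
  n + 1 - X n f v ≤ psi n f v

/-- 13. each component after deleting `v` is inside `sub f v` minus `v` or outside `sub f v` -/
def TaskD2 : Prop := ∀ (n : ℕ) (f : ℕ → ℕ) (v : Fin (n + 1)), Good f → 2 * X n f v ≤ n + 1 →
  psi n f v ≤ n + 1 - X n f v

/-- 14. from 12, 13: if `v ∈ A`, `v ≠ 0`, `X v < s`, then all `m` vertices `w` of the set have
`psi w < psi v`, so `A` has at least `m + 1` elements -/
def TaskD3 : Prop := ∀ (n m s : ℕ) (f : ℕ → ℕ) (A : Finset (Fin (n + 1))), Good f →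
  IsTop n f m A →
  m ≤ ((Finset.Icc 1 n).filter (fun k => s ≤ X n f k ∧ 2 * X n f k ≤ n + 1)).card →
  ∀ v ∈ A, (v : ℕ) ≠ 0 → s ≤ X n f v

/-- 15. from 12, 13: if `v ∉ A` then every `w ∈ A` has `w = 0` or `s ≤ X w`, so `|A| < m` -/
def TaskD4 : Prop := ∀ (n m s : ℕ) (f : ℕ → ℕ) (A : Finset (Fin (n + 1))), Good f →
  IsTop n f m A → ((Finset.Icc 1 n).filter (fun k => s ≤ X n f k)).card + 1 ≤ m →
  ∀ v : Fin (n + 1), s ≤ X n f v → 2 * X n f v ≤ n + 1 → v ∈ A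

/-- 16. existence of a top set (sort the vertices by `psi`; e.g. induction on `m`, adding a
minimiser of `psi` outside `A`) -/
def TaskEx : Prop := ∀ (n m : ℕ) (f : ℕ → ℕ), m ≤ n + 1 → ∃ A, IsTop n f m A

/-- 17. deterministic conclusion, upper bound (from 14) -/
def TaskUp : Prop := ∀ (n m s M K : ℕ) (f : ℕ → ℕ) (A : Finset (Fin (n + 1))), Good f →
  IsTop n f m A → M ≤ n → K ≤ n → m + HH n f ≤ NN n M s f →
  (A.filter (fun v => (v : ℕ) < K)).card ≤ NN n K s f + 1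

/-- 18. deterministic conclusion, lower bound (from 15) -/
def TaskLo : Prop := ∀ (n m s M K : ℕ) (f : ℕ → ℕ) (A : Finset (Fin (n + 1))), Good f →
  IsTop n f m A → M ≤ n → K ≤ n → NN n M s f + TT n M s f + 1 ≤ m →
  NN n K s f ≤ (A.filter (fun v => (v : ℕ) < K)).card + HH n f + 1

end Pool.Agent.Q39.CT
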