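import Pool.Agent.Q39.CT.Stmts

namespace Pool.Agent.Q39.CT

open Finset Filter Topology
open scoped Nat Classical

theorem taskSum : TaskSum := by
  intro b L hb hL
  have h1 : Tendsto (fun K : ℕ => 1 - b / (K : ℝ)) atTop (𝓝 1) := by
    have := (tendsto_const_div_atTop_nhds_zero_nat b).const_sub (1 : ℝ)
    simpa using this
  have h2 : Tendsto (fun K : ℕ => (1 - b / (K : ℝ)) ^ K) atTop (𝓝 (Real.exp (-b))) := by
    have := Real.tendsto_one_add_div_pow_exp (-b)
    refine this.congr (fun K => ?_)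
    congr 1
    ring
  have h3 : Tendsto (fun K : ℕ => (1 - b / (K : ℝ)) * (1 - ((1 - b / (K : ℝ)) ^ K) ^ L) / b) atTop
      (𝓝 ((1 - Real.exp (-(b * L))) / b)) := by
    have := ((h1.mul ((h2.pow L).const_sub 1)).div_const b)
    convert this using 2
    rw [one_mul, ← Real.exp_nat_mul]
    congr 3
    ring
  refine h3.congr' ?_
  filter_upwards [eventually_ge_atTop 1] with K hK
  have hK0 : (K : ℝ) ≠ 0 := by positivity
  have hb0 : b ≠ 0 := hb.ne'
  have hr : (1 - b / (K : ℝ)) - 1 ≠ 0 := by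
    have : b / (K : ℝ) ≠ 0 := div_ne_zero hb0 hK0
    intro h
    apply this
    linarith
  have hs : ∀ (r : ℝ) (N : ℕ), ∑ k ∈ Finset.Icc 1 N, r ^ k = r * ∑ i ∈ Finset.range N, r ^ i := by
    intro r N
    induction N with
    | zero => simp
    | succ N ih =>
      rw [Finset.sum_Icc_succ_top (by omega), ih, Finset.sum_range_succ]
      ring
  rw [hs, geom_sum_eq (by intro h; apply hr; rw [h]; ring), ← pow_mul, mul_comm L K]
  have h4 : (1 - b / (K : ℝ)) - 1 = -(b / K) := by ring
  rw [h4]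
  field_simp
  ring

end Pool.Agent.Q39.CT
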