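import Pool.Agent.Q39.CT.H

namespace Pool.Agent.Q39.CT

open Finset Filter Topology
open scoped Nat Classical

theorem sum_geom (x : ℝ) (M n : ℕ) (h : M ≤ n) :
    x * ∑ k ∈ Finset.Ioc M n, (1 - x) ^ k = (1 - x) ^ (M + 1) - (1 - x) ^ (n + 1) := by
  induction n, h using Nat.le_induction with
  | base => simp
  | succ n hn ih =>
    rw [← Finset.insert_Ioc_right_eq_Ioc_add_one hn, Finset.sum_insert (by simp), mul_add, ih,
      pow_succ (1 - x) (n + 1)]
    ring

theorem taskTail (hQ : TaskQUpper) : TaskTail := by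
  intro n M x τ hM hn hx hx1 hτ
  refine (markov n (fun f => (TT n M (aa x n) f : ℝ)) τ hτ (fun f => Nat.cast_nonneg _)).trans ?_
  rw [← div_div]
  apply div_le_div_of_nonneg_right _ hτ.le
  have e : Ex n (fun f => (TT n M (aa x n) f : ℝ)) =
      ∑ k ∈ Finset.Ioc M n, qq n k (aa x n) := by
    have e1 : Ex n (fun f => (TT n M (aa x n) f : ℝ)) =
        Ex n (fun f => ∑ k ∈ Finset.Ioc M n, ind (aa x n ≤ X n f k)) := by
      refine Ex_congr fun f _ => ?_
      unfold TT
      rw [card_filter_ind]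
    rw [e1, Ex_sum]
    refine Finset.sum_congr rfl fun k hk => ?_
    rw [Finset.mem_Ioc] at hk
    exact law_one (by omega) hk.2 (by unfold aa; omega)
  rw [e, le_div_iff₀ hx, mul_comm]
  have h1 : ∑ k ∈ Finset.Ioc M n, qq n k (aa x n) ≤ ∑ k ∈ Finset.Ioc M n, (1 - x) ^ k :=
    Finset.sum_le_sum fun k hk => hQ x n k hx.le hx1.le hn (Finset.mem_Ioc.1 hk).2
  have h2 := sum_geom x M n hM
  have h3 : (0 : ℝ) ≤ (1 - x) ^ (n + 1) := pow_nonneg (by linarith) _
  have h4 : (1 - x) ^ (M + 1) ≤ (1 - x) ^ M :=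
    pow_le_pow_of_le_one (by linarith) (by linarith) (by omega)
  have h5 := mul_le_mul_of_nonneg_left h1 hx.le
  linarith

end Pool.Agent.Q39.CT
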