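import Mathlib

/-!
# The uniform attachment tree: sizes of the subtrees
-/

namespace Pool.Agent.Q39.CT

open Finset
open scoped Nat Classical

/-- The attachments of the uniform attachment tree: the vertex `i + 1` is joined to `ω i ≤ i`. -/
abbrev Om (n : ℕ) : Type := ∀ i : Fin n, Fin (i.val + 1)

/-- The parent function: `par ω v` is the parent of `v` (and `0` if `v = 0` or `v > n`). -/
def par {n : ℕ} (ω : Om n) : ℕ → ℕ
  | 0 => 0
  | v + 1 => if h : v < n then (ω ⟨v, h⟩ : ℕ) else 0

/-- properties of a parent function -/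
structure Good (f : ℕ → ℕ) : Prop where
  zero : f 0 = 0
  le : ∀ v, f (v + 1) ≤ v

theorem good_par {n : ℕ} (ω : Om n) : Good (par ω) := by
  refine ⟨rfl, fun v => ?_⟩
  by_cases h : v < n
  · have := (ω ⟨v, h⟩).isLt
    simp only [par, h, dif_pos]
    exact Nat.lt_succ_iff.1 this
  · simp [par, h]

theorem par_snoc {n : ℕ} (ω : Om n) (a : Fin (n + 1)) :
    par (Fin.snocEquiv (fun i : Fin (n + 1) => Fin (i.val + 1)) (a, ω)) =
      Function.update (par ω) (n + 1) (a : ℕ) := by
  funext v
  cases v with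
  | zero => simp [par, Function.update]
  | succ v =>
    by_cases h : v < n
    · have h' : v < n + 1 := by omega
      have h1 : v + 1 ≠ n + 1 := by omega
      rw [Function.update_of_ne h1]
      simp only [par, h, h', dif_pos, Fin.snocEquiv_apply]
      exact congrArg Fin.val (Fin.snoc_castSucc (α := fun i : Fin (n + 1) => Fin (i.val + 1))
        a ω ⟨v, h⟩)
    · by_cases h2 : v = n
      · subst h2
        rw [Function.update_self]
        simp only [par, Nat.lt_succ_self, dif_pos, Fin.snocEquiv_apply]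
        exact congrArg Fin.val (Fin.snoc_last (α := fun i : Fin (v + 1) => Fin (i.val + 1)) a ω)
      · have h' : ¬ v < n + 1 := by omega
        have h1 : v + 1 ≠ n + 1 := by omega
        rw [Function.update_of_ne h1]
        simp [par, h, h']

/-- expectation over the `n!` attachments -/
noncomputable def Ex (n : ℕ) (g : (ℕ → ℕ) → ℝ) : ℝ := (∑ ω : Om n, g (par ω)) / (n ! : ℝ)

theorem Ex_succ (n : ℕ) (g : (ℕ → ℕ) → ℝ) :
    Ex (n + 1) g = Ex n (fun f => (∑ a ∈ range (n + 1), g (Function.update f (n + 1) a)) /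
      ((n : ℝ) + 1)) := by
  unfold Ex
  rw [← Equiv.sum_comp (Fin.snocEquiv (fun i : Fin (n + 1) => Fin (i.val + 1)))
    (fun ω => g (par ω)), Fintype.sum_prod_type_right]
  have e : ∀ ω : Om n, ∑ a : Fin (n + 1),
      g (par (Fin.snocEquiv (fun i : Fin (n + 1) => Fin (i.val + 1)) (a, ω))) =
      ∑ a ∈ range (n + 1), g (Function.update (par ω) (n + 1) a) := by
    intro ω
    rw [Finset.sum_range]
    exact Finset.sum_congr rfl fun a _ => by rw [par_snoc]
  have h := Finset.sum_congr (rfl : (Finset.univ : Finset (Om n)) = Finset.univ) fun ω _ => e ω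
  rw [← Finset.sum_div]
  refine (congrArg (· / (((n + 1) ! : ℕ) : ℝ)) h).trans ?_
  rw [Nat.factorial_succ]
  push_cast
  field_simp

theorem Ex_congr {n : ℕ} {g h : (ℕ → ℕ) → ℝ} (H : ∀ f, Good f → g f = h f) : Ex n g = Ex n h := by
  unfold Ex
  congr 1
  exact Finset.sum_congr rfl fun ω _ => H _ (good_par ω)

theorem Ex_mono {n : ℕ} {g h : (ℕ → ℕ) → ℝ} (H : ∀ f, Good f → g f ≤ h f) : Ex n g ≤ Ex n h := by
  unfold Ex
  apply div_le_div_of_nonneg_right _ (by positivity)
  exact Finset.sum_le_sum fun ω _ => H _ (good_par ω)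

theorem Ex_add (n : ℕ) (g h : (ℕ → ℕ) → ℝ) : Ex n (fun f => g f + h f) = Ex n g + Ex n h := by
  unfold Ex
  rw [Finset.sum_add_distrib, add_div]

theorem Ex_sub (n : ℕ) (g h : (ℕ → ℕ) → ℝ) : Ex n (fun f => g f - h f) = Ex n g - Ex n h := by
  unfold Ex
  rw [Finset.sum_sub_distrib, sub_div]

theorem Ex_mul (n : ℕ) (c : ℝ) (g : (ℕ → ℕ) → ℝ) : Ex n (fun f => c * g f) = c * Ex n g := by
  unfold Ex
  rw [← Finset.mul_sum, mul_div_assoc]

theorem Ex_sum {ι : Type} (n : ℕ) (s : Finset ι) (g : ι → (ℕ → ℕ) → ℝ) :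
    Ex n (fun f => ∑ i ∈ s, g i f) = ∑ i ∈ s, Ex n (g i) := by
  unfold Ex
  rw [Finset.sum_comm, Finset.sum_div]

theorem card_Om (n : ℕ) : Fintype.card (Om n) = n ! := by
  rw [Fintype.card_pi]
  simp only [Fintype.card_fin]
  rw [← Finset.prod_range_add_one_eq_factorial, Finset.prod_range]

theorem Ex_const (n : ℕ) (c : ℝ) : Ex n (fun _ => c) = c := by
  unfold Ex
  rw [Finset.sum_const, Finset.card_univ, card_Om, nsmul_eq_mul]
  have : (n ! : ℝ) ≠ 0 := by exact_mod_cast n.factorial_ne_zero
  field_simp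

/-- `v` is in the subtree of `k` -/
def sub (f : ℕ → ℕ) (k v : ℕ) : Prop := ∃ j, f^[j] v = k

theorem sub_self (f : ℕ → ℕ) (k : ℕ) : sub f k k := ⟨0, rfl⟩

theorem Good.le' {f : ℕ → ℕ} (hf : Good f) (v : ℕ) : f v ≤ v := by
  cases v with
  | zero => rw [hf.zero]
  | succ v => exact (hf.le v).trans (Nat.le_succ v)

theorem iter_le {f : ℕ → ℕ} (hf : Good f) (j v : ℕ) : f^[j] v ≤ v := by
  induction j with
  | zero => simp
  | succ j ih => rw [Function.iterate_succ_apply']; exact (hf.le' _).trans ih

theorem sub_le {f : ℕ → ℕ} (hf : Good f) {k v : ℕ} (h : sub f k v) : k ≤ v := by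
  obtain ⟨j, rfl⟩ := h
  exact iter_le hf j v

theorem sub_succ {f : ℕ → ℕ} (k v : ℕ) : sub f k v ↔ v = k ∨ sub f k (f v) := by
  constructor
  · rintro ⟨j, hj⟩
    cases j with
    | zero => exact Or.inl hj
    | succ j => exact Or.inr ⟨j, hj⟩
  · rintro (h | ⟨j, hj⟩)
    · exact ⟨0, h⟩
    · exact ⟨j + 1, hj⟩

theorem sub_trans {f : ℕ → ℕ} {i j k : ℕ} (h : sub f i j) (h' : sub f j k) : sub f i k := by
  obtain ⟨a, rfl⟩ := h
  obtain ⟨b, rfl⟩ := h'
  exact ⟨a + b, by rw [Function.iterate_add_apply]⟩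

/-- ancestors of the same vertex are comparable -/
theorem sub_chain {f : ℕ → ℕ} (hf : Good f) {j k v : ℕ} (hj : sub f j v) (hk : sub f k v)
    (hjk : j ≤ k) : sub f j k := by
  obtain ⟨a, ha⟩ := hj
  obtain ⟨b, hb⟩ := hk
  rcases le_total b a with h | h
  · refine ⟨a - b, ?_⟩
    rw [← hb, ← Function.iterate_add_apply, Nat.sub_add_cancel h, ha]
  · have h1 : f^[b - a] j = k := by
      rw [← ha, ← Function.iterate_add_apply, Nat.sub_add_cancel h, hb]
    have h2 := iter_le hf (b - a) j
    have : j = k := by omega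
    subst this
    exact sub_self f j

theorem iter_update {f : ℕ → ℕ} (hf : Good f) {n : ℕ} (a : ℕ) {v : ℕ} (hv : v ≤ n) (j : ℕ) :
    (Function.update f (n + 1) a)^[j] v = f^[j] v := by
  induction j with
  | zero => rfl
  | succ j ih =>
    rw [Function.iterate_succ_apply', ih, Function.iterate_succ_apply', Function.update_of_ne]
    have := iter_le hf j v
    omega

theorem sub_update {f : ℕ → ℕ} (hf : Good f) {n : ℕ} (a k : ℕ) {v : ℕ} (hv : v ≤ n) :
    sub (Function.update f (n + 1) a) k v ↔ sub f k v := by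
  simp only [sub, iter_update hf a hv]

theorem sub_update_last {f : ℕ → ℕ} (hf : Good f) {n a k : ℕ} (ha : a ≤ n) (hk : k ≤ n) :
    sub (Function.update f (n + 1) a) k (n + 1) ↔ sub f k a := by
  rw [sub_succ, Function.update_self, sub_update hf a k ha]
  constructor
  · rintro (h | h)
    · omega
    · exact h
  · exact Or.inr

/-- size of the subtree of `k` in the tree on `{0, ..., n}` -/
noncomputable def X (n : ℕ) (f : ℕ → ℕ) (k : ℕ) : ℕ := ((range (n + 1)).filter (sub f k)).card

/-- number of the vertices in the subtree of `j` but not of `k` -/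
noncomputable def A (n : ℕ) (f : ℕ → ℕ) (j k : ℕ) : ℕ :=
  ((range (n + 1)).filter (fun v => sub f j v ∧ ¬ sub f k v)).card

theorem X_update {f : ℕ → ℕ} (hf : Good f) {n a k : ℕ} (ha : a ≤ n) (hk : k ≤ n) :
    X (n + 1) (Function.update f (n + 1) a) k = X n f k + if sub f k a then 1 else 0 := by
  unfold X
  rw [Finset.range_add_one, Finset.filter_insert]
  have e : (range (n + 1)).filter (sub (Function.update f (n + 1) a) k) =
      (range (n + 1)).filter (sub f k) :=
    Finset.filter_congr fun v hv => sub_update hf a k (Nat.lt_succ_iff.1 (Finset.mem_range.1 hv))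
  rw [e]
  by_cases h : sub f k a
  · rw [if_pos ((sub_update_last hf ha hk).2 h), if_pos h, Finset.card_insert_of_notMem]
    simp
  · rw [if_neg (fun h' => h ((sub_update_last hf ha hk).1 h')), if_neg h, add_zero]

theorem A_update {f : ℕ → ℕ} (hf : Good f) {n a j k : ℕ} (ha : a ≤ n) (hj : j ≤ n) (hk : k ≤ n) :
    A (n + 1) (Function.update f (n + 1) a) j k =
      A n f j k + if sub f j a ∧ ¬ sub f k a then 1 else 0 := by
  unfold A
  rw [Finset.range_add_one, Finset.filter_insert]
  have e : (range (n + 1)).filter (fun v => sub (Function.update f (n + 1) a) j v ∧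
      ¬ sub (Function.update f (n + 1) a) k v) =
      (range (n + 1)).filter (fun v => sub f j v ∧ ¬ sub f k v) :=
    Finset.filter_congr fun v hv => by
      have hv' := Nat.lt_succ_iff.1 (Finset.mem_range.1 hv)
      rw [sub_update hf a k hv', sub_update hf a j hv']
  rw [e]
  have e2 : (sub (Function.update f (n + 1) a) j (n + 1) ∧
      ¬ sub (Function.update f (n + 1) a) k (n + 1)) ↔ (sub f j a ∧ ¬ sub f k a) := by
    rw [sub_update_last hf ha hk, sub_update_last hf ha hj]
  by_cases h : sub f j a ∧ ¬ sub f k a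
  · rw [if_pos (e2.2 h), if_pos h, Finset.card_insert_of_notMem]
    simp
  · rw [if_neg (fun h' => h (e2.1 h')), if_neg h, add_zero]

theorem sum_two (n : ℕ) (p : ℕ → Prop) (x y : ℝ) :
    ∑ a ∈ range (n + 1), (if p a then x else y) =
      ((range (n + 1)).filter p).card * x +
        ((n : ℝ) + 1 - ((range (n + 1)).filter p).card) * y := by
  rw [Finset.sum_ite, Finset.sum_const, Finset.sum_const, nsmul_eq_mul, nsmul_eq_mul]
  congr 2
  have h := Finset.card_filter_add_card_filter_not (s := range (n + 1)) p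
  rw [Finset.card_range] at h
  have h' : (((range (n + 1)).filter p).card : ℝ) +
      (((range (n + 1)).filter fun a => ¬ p a).card : ℝ) = (n : ℝ) + 1 := by exact_mod_cast h
  linarith

theorem sum_three (n : ℕ) (p q : ℕ → Prop) (x y z : ℝ) :
    ∑ a ∈ range (n + 1), (if p a then x else if q a ∧ ¬ p a then y else z) =
      ((range (n + 1)).filter p).card * x + ((range (n + 1)).filter (fun a => q a ∧ ¬ p a)).card * y
        + ((n : ℝ) + 1 - ((range (n + 1)).filter p).card
          - ((range (n + 1)).filter (fun a => q a ∧ ¬ p a)).card) * z := by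
  have h1 := sum_two n p (x - z) 0
  have h2 : ∑ a ∈ range (n + 1), (if q a ∧ ¬ p a then y - z else 0) =
      ((range (n + 1)).filter (fun a => q a ∧ ¬ p a)).card * (y - z) +
        ((n : ℝ) + 1 - ((range (n + 1)).filter (fun a => q a ∧ ¬ p a)).card) * 0 := by
    convert sum_two n (fun a => q a ∧ ¬ p a) (y - z) 0
  have e : ∀ a, (if p a then x else if q a ∧ ¬ p a then y else z) =
      (if p a then x - z else 0) + (if q a ∧ ¬ p a then y - z else 0) + z := by
    intro a
    by_cases hp : p a
    · simp [hp]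
    · by_cases hq : q a
      · simp [hp, hq]
      · simp [hp, hq]
  rw [Finset.sum_congr rfl (fun a _ => e a), Finset.sum_add_distrib, Finset.sum_add_distrib, h1, h2,
    Finset.sum_const, Finset.card_range, nsmul_eq_mul]
  push_cast
  ring

/-- the urn with one marked vertex -/
theorem step_one {n k : ℕ} (hk : k ≤ n) (F : ℕ → ℝ) :
    Ex (n + 1) (fun f => F (X (n + 1) f k)) =
      Ex n (fun f => (X n f k * F (X n f k + 1) + ((n : ℝ) + 1 - X n f k) * F (X n f k)) /
        ((n : ℝ) + 1)) := by
  rw [Ex_succ]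
  refine Ex_congr fun f hf => ?_
  congr 1
  have e : ∀ a ∈ range (n + 1), F (X (n + 1) (Function.update f (n + 1) a) k) =
      if sub f k a then F (X n f k + 1) else F (X n f k) := by
    intro a ha
    rw [X_update hf (Nat.lt_succ_iff.1 (Finset.mem_range.1 ha)) hk]
    split_ifs <;> simp
  rw [Finset.sum_congr rfl e, sum_two]
  rfl

/-- the urn with two marked vertices -/
theorem step_two {n j k : ℕ} (hj : j ≤ n) (hk : k ≤ n) (F : ℕ → ℕ → ℝ) :
    Ex (n + 1) (fun f => F (A (n + 1) f j k) (X (n + 1) f k)) =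
      Ex n (fun f => (X n f k * F (A n f j k) (X n f k + 1) +
        A n f j k * F (A n f j k + 1) (X n f k) +
        ((n : ℝ) + 1 - X n f k - A n f j k) * F (A n f j k) (X n f k)) / ((n : ℝ) + 1)) := by
  rw [Ex_succ]
  refine Ex_congr fun f hf => ?_
  congr 1
  have e : ∀ a ∈ range (n + 1), F (A (n + 1) (Function.update f (n + 1) a) j k)
      (X (n + 1) (Function.update f (n + 1) a) k) =
      if sub f k a then F (A n f j k) (X n f k + 1) else
        if sub f j a ∧ ¬ sub f k a then F (A n f j k + 1) (X n f k) else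
          F (A n f j k) (X n f k) := by
    intro a ha
    have ha' := Nat.lt_succ_iff.1 (Finset.mem_range.1 ha)
    rw [X_update hf ha' hk, A_update hf ha' hj hk]
    by_cases h1 : sub f k a
    · simp [h1]
    · by_cases h2 : sub f j a
      · simp [h1, h2]
      · simp [h1, h2]
  rw [Finset.sum_congr rfl e, sum_three]
  rfl

end Pool.Agent.Q39.CT
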