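import Pool.Agent.Q39.CT.Pair

/-! # TaskVar (helper150) -/

namespace Pool.Agent.Q39.CT

open Finset
open scoped Nat Classical

theorem NN_eq (n M a : ℕ) (f : ℕ → ℕ) :
    (NN n M a f : ℝ) = ∑ k ∈ Finset.Icc 1 M, ind (a ≤ X n f k) := by
  unfold NN
  rw [Finset.card_eq_sum_ones, Finset.sum_filter]
  push_cast
  refine Finset.sum_congr rfl fun k _ => ?_
  by_cases h : a ≤ X n f k
  · rw [ind_true h, if_pos h]
  · rw [ind_false h, if_neg h]

theorem ind_sq (p : Prop) : ind p * ind p = ind p := by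
  unfold ind; split_ifs <;> norm_num

theorem qq_le_one {n k a : ℕ} (hk : 1 ≤ k) (hkn : k ≤ n) (ha : 1 ≤ a) : qq n k a ≤ 1 := by
  rw [← law_one hk hkn ha]
  have := Ex_mono (n := n) (g := fun f => ind (a ≤ X n f k)) (h := fun _ => 1)
    (fun f _ => ind_le_one _)
  rwa [Ex_const] at this

theorem cov_le {n j k a : ℕ} (hj : 1 ≤ j) (hk : 1 ≤ k) (hjn : j ≤ n) (hkn : k ≤ n) (ha : 1 ≤ a) :
    Ex n (fun f => ind (a ≤ X n f j) * ind (a ≤ X n f k)) - qq n j a * qq n k a ≤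
      (if j = k then 1 else 0) + 1 / ((j : ℝ) + 1) + 1 / ((k : ℝ) + 1) := by
  have p1 : (0 : ℝ) ≤ 1 / ((j : ℝ) + 1) := by positivity
  have p2 : (0 : ℝ) ≤ 1 / ((k : ℝ) + 1) := by positivity
  rcases lt_trichotomy j k with h | h | h
  · have := taskPair n j k a hj h hkn ha
    rw [if_neg h.ne]
    linarith
  · subst h
    rw [if_pos rfl]
    have e : Ex n (fun f => ind (a ≤ X n f j) * ind (a ≤ X n f j)) = qq n j a := by
      rw [← law_one hj hjn ha]
      exact Ex_congr fun f _ => ind_sq _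
    rw [e]
    have := qq_le_one hj hjn ha
    have := qq_nonneg n j a
    nlinarith [mul_nonneg this this]
  · have := taskPair n k j a hk h hjn ha
    rw [if_neg h.ne']
    have e : Ex n (fun f => ind (a ≤ X n f j) * ind (a ≤ X n f k)) =
        Ex n (fun f => ind (a ≤ X n f k) * ind (a ≤ X n f j)) :=
      Ex_congr fun f _ => mul_comm _ _
    rw [e, mul_comm (qq n j a)]
    linarith

theorem taskVar (hSqrt : TaskSqrt) : TaskVar := by
  intro n M a hM hMn ha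
  have hmean : Ex n (fun f => (NN n M a f : ℝ)) = mu n M a := by
    rw [Ex_congr (h := fun f => ∑ k ∈ Finset.Icc 1 M, ind (a ≤ X n f k)) (fun f _ => NN_eq n M a f),
      Ex_sum]
    refine Finset.sum_congr rfl fun k hk => ?_
    have := Finset.mem_Icc.1 hk
    exact law_one this.1 (this.2.trans hMn) ha
  have hsq : Ex n (fun f => (NN n M a f : ℝ) * (NN n M a f : ℝ)) =
      ∑ j ∈ Finset.Icc 1 M, ∑ k ∈ Finset.Icc 1 M,
        Ex n (fun f => ind (a ≤ X n f j) * ind (a ≤ X n f k)) := by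
    rw [Ex_congr (h := fun f => ∑ j ∈ Finset.Icc 1 M, ∑ k ∈ Finset.Icc 1 M,
      ind (a ≤ X n f j) * ind (a ≤ X n f k)) (fun f _ => by
        rw [NN_eq, Finset.sum_mul_sum]), Ex_sum]
    exact Finset.sum_congr rfl fun j _ => Ex_sum _ _ _
  have hmu : mu n M a * mu n M a = ∑ j ∈ Finset.Icc 1 M, ∑ k ∈ Finset.Icc 1 M,
      qq n j a * qq n k a := by
    unfold mu
    rw [Finset.sum_mul_sum]
  have hvar : Ex n (fun f => ((NN n M a f : ℝ) - mu n M a) ^ 2) =
      Ex n (fun f => (NN n M a f : ℝ) * (NN n M a f : ℝ)) - mu n M a * mu n M a := by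
    have e : Ex n (fun f => ((NN n M a f : ℝ) - mu n M a) ^ 2) =
        Ex n (fun f => ((NN n M a f : ℝ) * (NN n M a f : ℝ) - (2 * mu n M a) * (NN n M a f : ℝ)) +
          mu n M a * mu n M a) := Ex_congr fun f _ => by ring
    rw [e, Ex_add, Ex_sub, Ex_mul, Ex_const, hmean]
    ring
  rw [hvar, hsq, hmu, ← Finset.sum_sub_distrib]
  have hS := hSqrt M
  have hbound : ∑ j ∈ Finset.Icc 1 M, (∑ k ∈ Finset.Icc 1 M,
        Ex n (fun f => ind (a ≤ X n f j) * ind (a ≤ X n f k)) -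
        ∑ k ∈ Finset.Icc 1 M, qq n j a * qq n k a) ≤
      ∑ j ∈ Finset.Icc 1 M, ∑ k ∈ Finset.Icc 1 M,
        ((if j = k then (1 : ℝ) else 0) + 1 / ((j : ℝ) + 1) + 1 / ((k : ℝ) + 1)) := by
    refine Finset.sum_le_sum fun j hj => ?_
    rw [← Finset.sum_sub_distrib]
    refine Finset.sum_le_sum fun k hk => ?_
    have h1 := Finset.mem_Icc.1 hj
    have h2 := Finset.mem_Icc.1 hk
    exact cov_le h1.1 h2.1 (h1.2.trans hMn) (h2.2.trans hMn) ha
  refine hbound.trans ?_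
  have hs1 : ∑ j ∈ Finset.Icc 1 M, ∑ k ∈ Finset.Icc 1 M, (if j = k then (1 : ℝ) else 0) = M := by
    have : ∀ j ∈ Finset.Icc 1 M, ∑ k ∈ Finset.Icc 1 M, (if j = k then (1 : ℝ) else 0) = 1 := by
      intro j hj
      rw [Finset.sum_ite_eq, if_pos hj]
    rw [Finset.sum_congr rfl this, Finset.sum_const, Nat.card_Icc, nsmul_eq_mul]
    simp
  have hs2 : ∑ j ∈ Finset.Icc 1 M, ∑ _k ∈ Finset.Icc 1 M, 1 / ((j : ℝ) + 1) =
      M * ∑ j ∈ Finset.Icc 1 M, 1 / ((j : ℝ) + 1) := by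
    rw [Finset.mul_sum]
    refine Finset.sum_congr rfl fun j _ => ?_
    rw [Finset.sum_const, Nat.card_Icc, nsmul_eq_mul]
    simp
  have hs3 : ∑ _j ∈ Finset.Icc 1 M, ∑ k ∈ Finset.Icc 1 M, 1 / ((k : ℝ) + 1) =
      M * ∑ j ∈ Finset.Icc 1 M, 1 / ((j : ℝ) + 1) := by
    rw [Finset.sum_const, Nat.card_Icc, nsmul_eq_mul]
    simp
  simp only [Finset.sum_add_distrib]
  rw [hs1, hs2, hs3]
  have hM0 : (1 : ℝ) ≤ M := by exact_mod_cast hM
  have hs : (1 : ℝ) ≤ √(M : ℝ) := by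
    rw [show (1 : ℝ) = √1 by simp]
    exact Real.sqrt_le_sqrt hM0
  nlinarith [mul_le_mul_of_nonneg_left hS (by linarith : (0 : ℝ) ≤ M)]

end Pool.Agent.Q39.CT
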